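import Pool.Agent.helper20.Sz.B1

/-! Module SZ-YYb: the square vanishes when all arcs are loops at the end. -/

open scoped symmDiff

namespace Pool.Agent.helper20.Sz
namespace YYb
variable {X E : Type} [DecidableEq X] {K : Cube X E} {eta : X → Bool}

open Classical in
/-- incidence of an arc with the circle of `z` -/
noncomputable def dl (K : Cube X E) (u : Finset X) (c : X) (z : E) : ℤ :=
  (if K.same u (K.tail c) z then 1 else 0) - (if K.same u (K.head c) z then 1 else 0)

/-- interlace matrix with signs -/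
noncomputable def M (K : Cube X E) (u : Finset X) (c y : X) : ℤ := dl K (u ∆ {y}) c (K.tail y)

theorem tele' (hK : K.IsSys eta) (v G : Finset X) (z' z : E) :
    ∑ c ∈ G, (if eta c then (1 : ℤ) else -1) * dl K (v ∆ G) c z' * dl K v c z = 0 := by
  classical
  have h := hK.tele v G (fun x => if K.same (v ∆ G) x z' then 1 else 0) (by
    intro x y hxy
    have : K.same (v ∆ G) x z' ↔ K.same (v ∆ G) y z' :=
      ⟨fun h => B1.trans hK.toIsCore (B1.symm hK.toIsCore hxy) h,
        fun h => B1.trans hK.toIsCore hxy h⟩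
    simp only [this]) z
  rw [← neg_eq_zero, ← h, ← Finset.sum_neg_distrib]
  refine Finset.sum_congr rfl fun c _ => ?_
  unfold dl
  ring

theorem dl_range (u : Finset X) (c : X) (z : E) :
    dl K u c z = 0 ∨ dl K u c z = 1 ∨ dl K u c z = -1 := by
  unfold dl
  split_ifs <;> simp

theorem M_range (u : Finset X) (c y : X) : M K u c y = 0 ∨ M K u c y = 1 ∨ M K u c y = -1 :=
  dl_range _ _ _

/-- `M` of two loops vanishes iff they are not interleaved -/
theorem M_eq_zero (hK : K.IsCore) {u : Finset X} {c y : X} (hc : K.Loop u c) (hy : K.Loop u y) :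
    M K u c y = 0 ↔ K.Loop (u ∆ {y}) c := by
  have hyn := hK.split u y hy
  have hm := hK.merge (u ∆ {y}) y hyn (K.tail c) (K.head c)
  rw [B1.sd_cancel] at hm
  constructor
  · intro h
    rcases hm.1 hc with h1 | ⟨h1, h2⟩ | ⟨h1, h2⟩
    · exact h1
    · exfalso
      have h3 : ¬ K.same (u ∆ {y}) (K.head c) (K.tail y) := fun h' =>
        hyn (B1.trans hK (B1.symm hK h') (B1.symm hK h2))
      simp only [M, dl, h1, h3, if_true, if_false] at h
      omega
    · exfalso
      have h3 : ¬ K.same (u ∆ {y}) (K.tail c) (K.tail y) := fun h' =>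
        hyn (B1.trans hK (B1.symm hK h') h1)
      simp only [M, dl, h3, B1.symm hK h2, if_true, if_false] at h
      omega
  · intro h
    unfold M dl
    have : K.same (u ∆ {y}) (K.tail c) (K.tail y) ↔ K.same (u ∆ {y}) (K.head c) (K.tail y) :=
      ⟨fun h' => B1.trans hK (B1.symm hK h) h', fun h' => B1.trans hK h h'⟩
    by_cases ha : K.same (u ∆ {y}) (K.tail c) (K.tail y)
    · rw [if_pos ha, if_pos (this.1 ha), sub_self]
    · rw [if_neg ha, if_neg (fun h => ha (this.2 h)), sub_self]

theorem M_self (hK : K.IsCore) {u : Finset X} {y : X} (hy : K.Loop u y) : M K u y y = 1 := by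
  have hyn := hK.split u y hy
  have h3 : ¬ K.same (u ∆ {y}) (K.head y) (K.tail y) := fun h' => hyn (B1.symm hK h')
  simp only [M, dl, B1.refl hK, h3, if_true, if_false, sub_zero]

/-- the sign belonging to the chirality `s0` -/
def sg (s0 : Bool) : ℤ := if s0 then 1 else -1

theorem crs_iff (hK : K.IsCore) {s0 : Bool} {u : Finset X} {c y : X} :
    K.Crs s0 u c y ↔ K.Loop u c ∧ K.Loop u y ∧ M K u c y = sg s0 := by
  unfold Cube.Crs
  constructor
  · rintro ⟨h1, h2, h3, h4⟩
    refine ⟨h1, h2, ?_⟩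
    have hne : M K u c y ≠ 0 := fun h => h3 ((M_eq_zero hK h1 h2).1 h)
    have h5 : ¬ (K.same (u ∆ {y}) (K.tail c) (K.tail y) ∧ K.same (u ∆ {y}) (K.head c) (K.tail y)) :=
      fun h => h3 (B1.trans hK h.1 (B1.symm hK h.2))
    unfold M dl sg at *
    by_cases ha : K.same (u ∆ {y}) (K.tail c) (K.tail y) <;>
    by_cases hb : K.same (u ∆ {y}) (K.head c) (K.tail y) <;>
    cases s0 <;> simp_all
  · rintro ⟨h1, h2, h3⟩
    refine ⟨h1, h2, ?_, ?_⟩
    · intro h
      rw [(M_eq_zero hK h1 h2).2 h] at h3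
      unfold sg at h3
      split_ifs at h3 <;> omega
    · unfold M dl sg at h3
      by_cases ha : K.same (u ∆ {y}) (K.tail c) (K.tail y) <;>
      by_cases hb : K.same (u ∆ {y}) (K.head c) (K.tail y) <;>
      cases s0 <;> simp_all

theorem crs_inter {s0 : Bool} {u : Finset X} {c y : X} (h : K.Crs s0 u c y) :
    K.Loop u c ∧ K.Loop u y ∧ ¬ K.Loop (u ∆ {y}) c := ⟨h.1, h.2.1, h.2.2.1⟩

/-- surgery along an interleaved pair does not change the circles -/
theorem same_of_inter (hK : K.IsCore) {u : Finset X} {c y : X} (hc : K.Loop u c)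
    (hy : K.Loop u y) (hn : ¬ K.Loop (u ∆ {y}) c) (p q : E) :
    K.same ((u ∆ {y}) ∆ {c}) p q ↔ K.same u p q := by
  have hyn := hK.split u y hy
  have m1 := hK.merge (u ∆ {y}) y hyn
  rw [B1.sd_cancel] at m1
  have m2 := hK.merge (u ∆ {y}) c hn
  rw [m1, m2]
  -- the ends of c are in the two halves
  rcases (m1 (K.tail c) (K.head c)).1 hc with h1 | ⟨h1, h2⟩ | ⟨h1, h2⟩
  · exact absurd h1 hn
  · constructor
    · rintro (h | ⟨h3, h4⟩ | ⟨h3, h4⟩)
      · exact Or.inl h
      · exact Or.inr (Or.inl ⟨B1.trans hK h3 h1, B1.trans hK h2 h4⟩)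
      · exact Or.inr (Or.inr ⟨B1.trans hK h3 (B1.symm hK h2), B1.trans hK (B1.symm hK h1) h4⟩)
    · rintro (h | ⟨h3, h4⟩ | ⟨h3, h4⟩)
      · exact Or.inl h
      · exact Or.inr (Or.inl ⟨B1.trans hK h3 (B1.symm hK h1), B1.trans hK (B1.symm hK h2) h4⟩)
      · exact Or.inr (Or.inr ⟨B1.trans hK h3 h2, B1.trans hK h1 h4⟩)
  · constructor
    · rintro (h | ⟨h3, h4⟩ | ⟨h3, h4⟩)
      · exact Or.inl h
      · exact Or.inr (Or.inr ⟨B1.trans hK h3 h1, B1.trans hK h2 h4⟩)
      · exact Or.inr (Or.inl ⟨B1.trans hK h3 (B1.symm hK h2), B1.trans hK (B1.symm hK h1) h4⟩)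
    · rintro (h | ⟨h3, h4⟩ | ⟨h3, h4⟩)
      · exact Or.inl h
      · exact Or.inr (Or.inr ⟨B1.trans hK h3 h2, B1.trans hK h1 h4⟩)
      · exact Or.inr (Or.inl ⟨B1.trans hK h3 (B1.symm hK h1), B1.trans hK (B1.symm hK h2) h4⟩)

theorem sd_pair (u : Finset X) {c y : X} (h : c ≠ y) : u ∆ {c, y} = (u ∆ {y}) ∆ {c} := by
  rw [B1.sd_insert' _ _ (by simpa using h)]

theorem sd_comm (u : Finset X) (A B : Finset X) : (u ∆ A) ∆ B = (u ∆ B) ∆ A := by
  rw [symmDiff_assoc, symmDiff_comm A B, ← symmDiff_assoc]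

/-- chirality does not change under surgery along the pair itself -/
theorem crs_flip (hK : K.IsCore) {s0 : Bool} (hC : K.CrsP s0) {u : Finset X} {c y : X}
    (hh : c ∈ u ↔ y ∈ u) (h : K.Crs s0 u c y) :
    K.Crs s0 ((u ∆ {y}) ∆ {c}) c y := by
  obtain ⟨h1, h2, h3⟩ := crs_inter h
  have hs := same_of_inter hK h1 h2 h3
  have h4 := hC u c y hh h
  have e : ((u ∆ {y}) ∆ {c}) ∆ {y} = u ∆ {c} := by
    rw [sd_comm, B1.sd_cancel]
  refine ⟨(hs _ _).2 h1, (hs _ _).2 h2, ?_, ?_⟩
  · rw [e]; exact hK.split _ _ h1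
  · rw [e, ← h4.2.2.2]
    exact ⟨B1.symm hK, B1.symm hK⟩

theorem mem_sd {u A : Finset X} {c : X} : c ∈ u ∆ A ↔ ((c ∈ u ∧ c ∉ A) ∨ (c ∈ A ∧ c ∉ u)) :=
  Finset.mem_symmDiff

theorem hom_flip1 {v : Finset X} {c a b : X} (hab : a ∈ v ↔ b ∈ v) (ha : a ≠ c) (hb : b ≠ c) :
    a ∈ v ∆ {c} ↔ b ∈ v ∆ {c} := by
  simp only [mem_sd, Finset.mem_singleton]; grind

theorem hom_flip2 {w : Finset X} {c y : X} (hcy : c ≠ y) (h : c ∈ w ↔ y ∈ w) :
    c ∈ (w ∆ {y}) ∆ {c} ↔ y ∈ (w ∆ {y}) ∆ {c} := by
  simp only [mem_sd, Finset.mem_singleton]; grind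

theorem crs_flip_iff (hK : K.IsCore) {s0 : Bool} (hC : K.CrsP s0) {u : Finset X} {c y : X}
    (hcy : c ≠ y) (hh : c ∈ u ↔ y ∈ u) :
    K.Crs s0 ((u ∆ {y}) ∆ {c}) c y ↔ K.Crs s0 u c y := by
  refine ⟨fun h => ?_, crs_flip hK hC hh⟩
  have h1 := crs_flip hK hC (u := (u ∆ {y}) ∆ {c}) (by
    simp only [mem_sd, Finset.mem_singleton]; grind) h
  have e : ((((u ∆ {y}) ∆ {c}) ∆ {y}) ∆ {c}) = u := by
    rw [sd_comm (u ∆ {y}) {c} {y}, B1.sd_cancel, B1.sd_cancel]
  rwa [e] at h1

theorem crs_self {s0 : Bool} (hK : K.IsCore) {u : Finset X} {c : X} : K.Crs s0 u c c ↔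
    K.Loop u c ∧ s0 = true := by
  unfold Cube.Crs
  constructor
  · rintro ⟨h1, _, _, h4⟩
    exact ⟨h1, h4.1 (B1.refl hK _ _)⟩
  · rintro ⟨h1, h2⟩
    exact ⟨h1, h1, hK.split _ _ h1, ⟨fun _ => h2, fun _ => B1.refl hK _ _⟩⟩

/-- interleaved arcs have different sides -/
theorem eta_ne (hK : K.IsSys eta) {s0 : Bool} {u : Finset X} {c y : X} (hcy : c ≠ y)
    (hh : c ∈ u ↔ y ∈ u) (h : K.Crs s0 u c y) : eta c ≠ eta y := by
  obtain ⟨h1, h2, h3⟩ := crs_inter h
  exact fun h' => hK.side1 u y c hcy.symm hh.symm h2 h1 h3 h'.symm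

theorem M_zero_of_eta (hK : K.IsSys eta) {u : Finset X} {c y : X} (hcy : c ≠ y)
    (hh : c ∈ u ↔ y ∈ u) (hc : K.Loop u c) (hy : K.Loop u y) (he : eta c = eta y) :
    M K u c y = 0 := by
  rw [M_eq_zero hK.toIsCore hc hy]
  by_contra h
  exact hK.side1 u y c hcy.symm hh.symm hy hc h he.symm

theorem hom_sub {v G A : Finset X} (h : Hom v G) (hA : A ⊆ G) : Hom v A :=
  fun c hc c' hc' => h c (hA hc) c' (hA hc')

theorem hom_flip {v G A B : Finset X} (h : Hom v G) (hB : B ⊆ G)
    (hd : ∀ c ∈ B, ∀ c' ∈ B, (c ∈ A ↔ c' ∈ A)) : Hom (v ∆ A) B := by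
  intro c hc c' hc'
  have h1 := h c (hB hc) c' (hB hc')
  have h2 := hd c hc c' hc'
  simp only [mem_sd]
  grind

/-- the bunches of a crossed bunch are the two colour classes -/
theorem bun_iff (hK : K.IsSys eta) {s0 : Bool} (hC : K.CrsP s0) {v A : Finset X} (hA : Hom v A) :
    K.Bun s0 v A ↔ (∃ i ∈ A, eta i = true) ∧ (∃ j ∈ A, eta j = false) ∧
      ∀ i ∈ A, ∀ j ∈ A, eta i = true → eta j = false → K.Crs s0 v i j := by
  constructor
  · rintro ⟨P, Q, hPQ, hd, ⟨p, hp⟩, ⟨q, hq⟩, hcr⟩
    have hPA : P ⊆ A := hPQ ▸ Finset.subset_union_left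
    have hQA : Q ⊆ A := hPQ ▸ Finset.subset_union_right
    have hne : ∀ i ∈ P, ∀ j ∈ Q, i ≠ j := fun i hi j hj h =>
      Finset.disjoint_left.1 hd hi (h ▸ hj)
    have het : ∀ i ∈ P, ∀ j ∈ Q, eta i ≠ eta j := fun i hi j hj =>
      eta_ne hK (hne i hi j hj) (hA i (hPA hi) j (hQA hj)) (hcr i hi j hj)
    have hpq := het p hp q hq
    have hP : ∀ i ∈ P, eta i = eta p := by
      intro i hi
      have := het i hi q hq
      revert this hpq
      cases eta i <;> cases eta p <;> cases eta q <;> simp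
    have hQ : ∀ j ∈ Q, eta j = eta q := by
      intro j hj
      have := het p hp j hj
      revert this hpq
      cases eta j <;> cases eta p <;> cases eta q <;> simp
    have hmem : ∀ i ∈ A, i ∈ P ∨ i ∈ Q := fun i hi => by
      rw [← hPQ] at hi; exact Finset.mem_union.1 hi
    cases hep : eta p
    · -- P is the class false
      have heq : eta q = true := by
        revert hpq; rw [hep]; cases eta q <;> simp
      refine ⟨⟨q, hQA hq, heq⟩, ⟨p, hPA hp, hep⟩, ?_⟩
      intro i hi j hj h1 h2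
      have hi' : i ∈ Q := by
        rcases hmem i hi with h | h
        · have := hP i h; rw [h1, hep] at this; exact absurd this (by simp)
        · exact h
      have hj' : j ∈ P := by
        rcases hmem j hj with h | h
        · exact h
        · have := hQ j h; rw [h2, heq] at this; exact absurd this (by simp)
      exact hC v j i (hA j hj i hi) (hcr j hj' i hi')
    · have heq : eta q = false := by
        revert hpq; rw [hep]; cases eta q <;> simp
      refine ⟨⟨p, hPA hp, hep⟩, ⟨q, hQA hq, heq⟩, ?_⟩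
      intro i hi j hj h1 h2
      have hi' : i ∈ P := by
        rcases hmem i hi with h | h
        · exact h
        · have := hQ i h; rw [h1, heq] at this; exact absurd this (by simp)
      have hj' : j ∈ Q := by
        rcases hmem j hj with h | h
        · have := hP j h; rw [h2, hep] at this; exact absurd this (by simp)
        · exact h
      exact hcr i hi' j hj'
  · rintro ⟨⟨p, hp, hp'⟩, ⟨q, hq, hq'⟩, h⟩
    refine ⟨A.filter (fun i => eta i = true), A.filter (fun i => ¬ eta i = true),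
      Finset.filter_union_filter_not_eq _ _, Finset.disjoint_filter_filter_not _ _ _,
      ⟨p, Finset.mem_filter.2 ⟨hp, hp'⟩⟩, ⟨q, Finset.mem_filter.2 ⟨hq, by simp [hq']⟩⟩, ?_⟩
    intro i hi j hj
    rw [Finset.mem_filter] at hi hj
    exact h i hi.1 j hj.1 hi.2 (by simpa using hj.2)

theorem bun_sub (hK : K.IsSys eta) {s0 : Bool} (hC : K.CrsP s0) {v A B : Finset X}
    (hA : Hom v A) (h : K.Bun s0 v A) (hB : B ⊆ A) (h1 : ∃ i ∈ B, eta i = true)
    (h2 : ∃ j ∈ B, eta j = false) : K.Bun s0 v B := by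
  rw [bun_iff hK hC (hom_sub hA hB)]
  rw [bun_iff hK hC hA] at h
  exact ⟨h1, h2, fun i hi j hj => h.2.2 i (hB hi) j (hB hj)⟩

theorem par_sub {v A B : Finset X} (h : K.Par v A) (hB : B ⊆ A) (hne : B.Nonempty) :
    K.Par v B := by
  obtain ⟨_, a, b, h1, h2⟩ := h
  exact ⟨hne, a, b, h1, fun g hg => h2 g (hB hg)⟩

theorem par_nonloop (hK : K.IsCore) {v A : Finset X} (h : K.Par v A) {c : X} (hc : c ∈ A) :
    ¬ K.Loop v c := by
  obtain ⟨_, a, b, h1, h2⟩ := h
  obtain ⟨h3, h4⟩ := h2 c hc
  exact fun h' => h1 (B1.trans hK (B1.symm hK h3) (B1.trans hK h' h4))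

/-- parallel arcs have the same side -/
theorem par_eta (hK : K.IsSys eta) {v A : Finset X} (hA : Hom v A) (h : K.Par v A) {c c' : X}
    (hc : c ∈ A) (hc' : c' ∈ A) : eta c = eta c' := by
  have hnl := par_nonloop hK.toIsCore h hc
  obtain ⟨_, a, b, h1, h2⟩ := h
  obtain ⟨h3, h4⟩ := h2 c hc
  obtain ⟨h5, h6⟩ := h2 c' hc'
  exact hK.side2 v c c' (hA c hc c' hc') hnl (Or.inl
    ⟨B1.trans hK.toIsCore h3 (B1.symm hK.toIsCore h5),
      B1.trans hK.toIsCore h4 (B1.symm hK.toIsCore h6)⟩)

theorem ac_empty {s0 : Bool} {v : Finset X} : ¬ K.AC s0 v ∅ := by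
  rintro (⟨h, _⟩ | ⟨A, B, h, _, ⟨a, ha⟩, _⟩)
  · exact absurd h (by simp)
  · have : a ∈ (∅ : Finset X) := h ▸ Finset.mem_union_left _ ha
    simp at this

theorem ac_single (hK : K.IsCore) {s0 : Bool} {v : Finset X} {x : X} :
    K.AC s0 v {x} ↔ ¬ K.Loop v x := by
  constructor
  · rintro (h | ⟨A, B, h, hd, ⟨a, ha⟩, ⟨b, hb⟩, _⟩)
    · exact par_nonloop hK h (Finset.mem_singleton_self _)
    · exfalso
      have h1 : a ∈ ({x} : Finset X) := h ▸ Finset.mem_union_left _ ha
      have h2 : b ∈ ({x} : Finset X) := h ▸ Finset.mem_union_right _ hb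
      rw [Finset.mem_singleton] at h1 h2
      subst h1; subst h2
      exact Finset.disjoint_left.1 hd ha hb
  · intro h
    exact Or.inl ⟨Finset.singleton_nonempty _, K.tail x, K.head x, h, fun g hg => by
      rw [Finset.mem_singleton] at hg; subst hg
      exact ⟨B1.refl hK _ _, B1.refl hK _ _⟩⟩

/-- pairs of different sides -/
theorem ac_pair_ne (hK : K.IsSys eta) {s0 : Bool} (hC : K.CrsP s0) {v : Finset X} {x y : X}
    (hh : x ∈ v ↔ y ∈ v) (he : eta x ≠ eta y) : K.AC s0 v {x, y} ↔ K.Crs s0 v x y := by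
  have hA : Hom v {x, y} := by
    intro c hc c' hc'
    simp only [Finset.mem_insert, Finset.mem_singleton] at hc hc'
    rcases hc with rfl | rfl <;> rcases hc' with rfl | rfl <;> grind
  constructor
  · rintro (h | h)
    · exact absurd (par_eta hK hA h (by simp) (by simp)) he
    · rw [bun_iff hK hC hA] at h
      cases hx : eta x
      · have hy : eta y = true := by
          revert he; rw [hx]; cases eta y <;> simp
        exact hC v y x hh.symm (h.2.2 y (by simp) x (by simp) hy hx)
      · have hy : eta y = false := by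
          revert he; rw [hx]; cases eta y <;> simp
        exact h.2.2 x (by simp) y (by simp) hx hy
  · intro h
    have hne : x ≠ y := fun h => he (h ▸ rfl)
    exact Or.inr ⟨{x}, {y}, rfl, by simpa using hne, by simp, by simp, by
      intro e he f hf
      rw [Finset.mem_singleton] at he hf
      subst he; subst hf; exact h⟩

theorem ac_pair_eq (hK : K.IsSys eta) {s0 : Bool} (hC : K.CrsP s0) {v : Finset X} {x y : X}
    (hh : x ∈ v ↔ y ∈ v) (he : eta x = eta y) : K.AC s0 v {x, y} ↔ K.Par v {x, y} := by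
  have hA : Hom v {x, y} := by
    intro c hc c' hc'
    simp only [Finset.mem_insert, Finset.mem_singleton] at hc hc'
    rcases hc with rfl | rfl <;> rcases hc' with rfl | rfl <;> grind
  refine ⟨?_, Or.inl⟩
  rintro (h | h)
  · exact h
  · exfalso
    rw [bun_iff hK hC hA] at h
    obtain ⟨⟨i, hi, hi'⟩, ⟨j, hj, hj'⟩, _⟩ := h
    simp only [Finset.mem_insert, Finset.mem_singleton] at hi hj
    rcases hi with rfl | rfl <;> rcases hj with rfl | rfl <;> simp_all

theorem ac_triple (hK : K.IsSys eta) {s0 : Bool} (hC : K.CrsP s0) {v : Finset X} {x y z : X}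
    (hA : Hom v {x, y, z}) (he : eta x = eta y) (he' : eta x ≠ eta z) :
    K.AC s0 v {x, y, z} ↔ K.Crs s0 v x z ∧ K.Crs s0 v y z := by
  constructor
  · rintro (h | h)
    · exact absurd (par_eta hK hA h (by simp) (by simp)) he'
    · rw [bun_iff hK hC hA] at h
      cases hx : eta x
      · have hz : eta z = true := by
          revert he'; rw [hx]; cases eta z <;> simp
        exact ⟨hC v z x (hA _ (by simp) _ (by simp)) (h.2.2 z (by simp) x (by simp) hz hx),
          hC v z y (hA _ (by simp) _ (by simp)) (h.2.2 z (by simp) y (by simp) hz (he ▸ hx))⟩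
      · have hz : eta z = false := by
          revert he'; rw [hx]; cases eta z <;> simp
        exact ⟨h.2.2 x (by simp) z (by simp) hx hz, h.2.2 y (by simp) z (by simp) (he ▸ hx) hz⟩
  · rintro ⟨h1, h2⟩
    have hne : x ≠ z := fun h => he' (h ▸ rfl)
    have hne' : y ≠ z := fun h => he' (h ▸ he)
    refine Or.inr ⟨{x, y}, {z}, by ext; simp [or_assoc], ?_, by simp, by simp, ?_⟩
    · rw [Finset.disjoint_singleton_right]
      simp only [Finset.mem_insert, Finset.mem_singleton, not_or]
      exact ⟨hne.symm, hne'.symm⟩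
    · intro e he f hf
      simp only [Finset.mem_insert, Finset.mem_singleton] at he hf
      rcases he with rfl | rfl <;> subst hf <;> assumption

section count
variable [Finite E]

theorem loop_iff_num (hK : K.IsCore) {v : Finset X} {c : X} :
    K.Loop v c ↔ K.num (v ∆ {c}) = K.num v + 1 := by
  constructor
  · exact B1.num_flip_loop hK
  · intro h
    by_contra h'
    have := B1.num_flip_nonloop hK h'
    omega

theorem nonloop_iff_num (hK : K.IsCore) {v : Finset X} {c : X} :
    ¬ K.Loop v c ↔ K.num (v ∆ {c}) + 1 = K.num v := by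
  constructor
  · exact B1.num_flip_nonloop hK
  · intro h h'
    have := B1.num_flip_loop hK h'
    omega

theorem num_inter (hK : K.IsCore) {u : Finset X} {c y : X} (hy : K.Loop u y)
    (hn : ¬ K.Loop (u ∆ {y}) c) : K.num ((u ∆ {y}) ∆ {c}) = K.num u := by
  have h1 := B1.num_flip_loop hK hy
  have h2 := B1.num_flip_nonloop hK hn
  omega

theorem num_noninter (hK : K.IsCore) {u : Finset X} {c y : X} (hy : K.Loop u y)
    (hn : K.Loop (u ∆ {y}) c) : K.num ((u ∆ {y}) ∆ {c}) = K.num u + 2 := by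
  have h1 := B1.num_flip_loop hK hy
  have h2 := B1.num_flip_loop hK hn
  omega

/-- erasing an arc from a set of type A or C, if the rest is again of type A or C -/
theorem ac_erase (hK : K.IsCore) {s0 : Bool} (hN : K.NumP s0) {v A : Finset X} (hA : Hom v A)
    {c : X} (hc : c ∈ A) (h1 : K.AC s0 v A) (h2 : K.AC s0 v (A.erase c)) :
    K.Loop (v ∆ A.erase c) c ∧ ¬ K.Loop (v ∆ A) c ∧
      K.num (v ∆ A) = K.num (v ∆ A.erase c) + 1 := by
  have h3 := hN v A hA h1
  have h4 := hN v (A.erase c) (hom_sub hA (Finset.erase_subset _ _)) h2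
  have h5 : (A.erase c).card + 1 = A.card := Finset.card_erase_add_one hc
  have h6 : v ∆ A = (v ∆ A.erase c) ∆ {c} := by
    conv_lhs => rw [← Finset.insert_erase hc]
    rw [B1.sd_insert' _ _ (Finset.notMem_erase c A)]
  have h7 : K.num (v ∆ A) = K.num (v ∆ A.erase c) + 1 := by omega
  have h8 : K.Loop (v ∆ A.erase c) c := by
    rw [loop_iff_num hK, ← h6]; exact h7
  refine ⟨h8, ?_, h7⟩
  rw [h6]; exact hK.split _ _ h8

/-- the last set of a nonvanishing term has at most two elements -/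
theorem last_small (hK : K.IsSys eta) {s0 : Bool} (hN : K.NumP s0) (hC : K.CrsP s0)
    {u A' : Finset X} (hA : Hom u A') (h : K.AC s0 u A') (hl : ∀ c ∈ A', K.Loop (u ∆ A') c) :
    (∃ e, A' = {e} ∧ ¬ K.Loop u e) ∨
    (∃ l r, A' = {l, r} ∧ eta l = true ∧ eta r = false ∧ K.Crs s0 u l r) := by
  have key : ∀ c ∈ A', ¬ K.AC s0 u (A'.erase c) := fun c hc h' =>
    (ac_erase hK.toIsCore hN hA hc h h').2.1 (hl c hc)
  rcases h with h | h
  · obtain ⟨e, he⟩ := h.1
    left
    refine ⟨e, ?_, par_nonloop hK.toIsCore h he⟩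
    have h1 := key e he
    have h2 : A'.erase e = ∅ := by
      by_contra h'
      exact h1 (Or.inl (par_sub h (Finset.erase_subset _ _) (Finset.nonempty_iff_ne_empty.2 h')))
    ext x
    rw [Finset.mem_singleton]
    constructor
    · intro hx
      by_contra hne
      have : x ∈ A'.erase e := Finset.mem_erase.2 ⟨hne, hx⟩
      rw [h2] at this; simp at this
    · rintro rfl; exact he
  · right
    have hb := (bun_iff hK hC hA).1 h
    obtain ⟨⟨l, hl1, hl2⟩, ⟨r, hr1, hr2⟩, hcr⟩ := hb
    refine ⟨l, r, ?_, hl2, hr2, hcr l hl1 r hr1 hl2 hr2⟩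
    ext x
    simp only [Finset.mem_insert, Finset.mem_singleton]
    constructor
    · intro hx
      by_contra hne
      push Not at hne
      exact key x hx (Or.inr (bun_sub hK hC hA h (Finset.erase_subset _ _)
        ⟨l, Finset.mem_erase.2 ⟨hne.1.symm, hl1⟩, hl2⟩
        ⟨r, Finset.mem_erase.2 ⟨hne.2.symm, hr1⟩, hr2⟩))
    · rintro (rfl | rfl) <;> assumption

theorem sd_erase_erase {A : Finset X} {c c' : X} (hc : c ∈ A) (hc' : c' ∈ A) (hne : c ≠ c')
    (v : Finset X) : v ∆ A.erase c = (v ∆ ((A.erase c).erase c')) ∆ {c'} := by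
  have h : c' ∈ A.erase c := Finset.mem_erase.2 ⟨hne.symm, hc'⟩
  conv_lhs => rw [← Finset.insert_erase h]
  rw [B1.sd_insert' _ _ (Finset.notMem_erase c' _)]

theorem sd_erase {A : Finset X} {c : X} (hc : c ∈ A) (v : Finset X) :
    v ∆ A = (v ∆ A.erase c) ∆ {c} := by
  conv_lhs => rw [← Finset.insert_erase hc]
  rw [B1.sd_insert' _ _ (Finset.notMem_erase c A)]

/-- the arc `e` is a loop after surgery along `A.erase c` -/
theorem loop_erase (hK : K.IsCore) {s0 : Bool} (hN : K.NumP s0) {v A : Finset X} (hA : Hom v A)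
    {e : X} (h : K.AC s0 v A) (he : ¬ K.Loop (v ∆ A) e)
    {c : X} (hc : c ∈ A) (hl : K.Loop ((v ∆ A) ∆ {e}) c) (h2 : K.AC s0 v (A.erase c)) :
    K.Loop (v ∆ A.erase c) e := by
  obtain ⟨h3, h4, h5⟩ := ac_erase hK hN hA hc h h2
  have h6 := B1.num_flip_nonloop hK he
  have h7 := B1.num_flip_loop hK hl
  rw [loop_iff_num hK]
  have h8 : ((v ∆ A) ∆ {e}) ∆ {c} = (v ∆ A.erase c) ∆ {e} := by
    rw [sd_comm, sd_erase hc v, B1.sd_cancel]
  rw [h8] at h7
  omega

/-- two arcs cannot be erased -/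
theorem no_double (hK : K.IsCore) {s0 : Bool} (hN : K.NumP s0) {v A : Finset X} (hA : Hom v A)
    {e : X} (h : K.AC s0 v A) (he : ¬ K.Loop (v ∆ A) e)
    (hl : ∀ c ∈ A, K.Loop ((v ∆ A) ∆ {e}) c) {c c' : X} (hc : c ∈ A) (hc' : c' ∈ A)
    (hne : c ≠ c') (h1 : K.AC s0 v (A.erase c)) (h2 : K.AC s0 v (A.erase c'))
    (h3 : K.AC s0 v ((A.erase c).erase c')) : False := by
  set z := v ∆ ((A.erase c).erase c') with hz
  have hz' : v ∆ ((A.erase c').erase c) = z := by rw [Finset.erase_right_comm]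
  have e1 : v ∆ A.erase c = z ∆ {c'} := sd_erase_erase hc hc' hne v
  have e2 : v ∆ A.erase c' = z ∆ {c} := by
    rw [sd_erase_erase hc' hc hne.symm v, hz']
  have hcm : c' ∈ A.erase c := Finset.mem_erase.2 ⟨hne.symm, hc'⟩
  have hcm' : c ∈ A.erase c' := Finset.mem_erase.2 ⟨hne, hc⟩
  have hAe := hom_sub hA (Finset.erase_subset c A)
  have hAe' := hom_sub hA (Finset.erase_subset c' A)
  have lz' : K.Loop z c' := (ac_erase hK hN hAe hcm h1 h3).1
  have lz : K.Loop z c := by
    have := (ac_erase hK hN hAe' hcm' h2 (by rwa [Finset.erase_right_comm])).1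
    rwa [hz'] at this
  have l1 : K.Loop (z ∆ {c'}) c := by
    have := (ac_erase hK hN hA hc h h1).1
    rwa [e1] at this
  have l2 : K.Loop (z ∆ {c}) c' := by
    have := (ac_erase hK hN hA hc' h h2).1
    rwa [e2] at this
  have l3 : K.Loop (z ∆ {c'}) e := by
    have := loop_erase hK hN hA h he hc (hl c hc) h1
    rwa [e1] at this
  have l4 : K.Loop (z ∆ {c}) e := by
    have := loop_erase hK hN hA h he hc' (hl c' hc') h2
    rwa [e2] at this
  have l5 : K.Loop z e := B1.finer1 hK lz l4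
  have l6 : K.Loop (z ∆ {e}) c := by
    rw [loop_iff_num hK, sd_comm, B1.num_flip_loop hK l4, B1.num_flip_loop hK lz,
      B1.num_flip_loop hK l5]
  have l7 : K.Loop (z ∆ {e}) c' := by
    rw [loop_iff_num hK, sd_comm, B1.num_flip_loop hK l3, B1.num_flip_loop hK lz',
      B1.num_flip_loop hK l5]
  have hce : c ≠ e := by
    rintro rfl
    exact hK.split z c lz l4
  have hce' : c' ≠ e := by
    rintro rfl
    exact hK.split z c' lz' l3
  have hs : K.Spl z {c, c', e} := by
    apply B1.spl_of_pairwise hK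
    · intro d hd
      simp only [Finset.mem_insert, Finset.mem_singleton] at hd
      rcases hd with rfl | rfl | rfl <;> assumption
    · intro d hd d' hd' hdd
      simp only [Finset.mem_insert, Finset.mem_singleton] at hd hd'
      rcases hd with rfl | rfl | rfl <;> rcases hd' with rfl | rfl | rfl <;>
        first | assumption | exact absurd rfl hdd
  unfold Cube.Spl at hs
  have e3 : v ∆ A = (z ∆ {c'}) ∆ {c} := by rw [sd_erase hc v, e1]
  have e4 : z ∆ {c, c', e} = (v ∆ A) ∆ {e} := by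
    have h5 : ({c, c', e} : Finset X) = insert e {c, c'} := by
      ext x; simp only [Finset.mem_insert, Finset.mem_singleton]; grind
    rw [h5, B1.sd_insert' _ _ (by
      simp only [Finset.mem_insert, Finset.mem_singleton, not_or]
      exact ⟨hce.symm, hce'.symm⟩), sd_pair _ hne, e3]
  have e5 : ({c, c', e} : Finset X).card = 3 := by
    rw [Finset.card_insert_of_notMem, Finset.card_insert_of_notMem, Finset.card_singleton]
    · simpa using hce'
    · simp only [Finset.mem_insert, Finset.mem_singleton, not_or]; exact ⟨hne, hce⟩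
  have h6 := B1.num_flip_nonloop hK he
  rw [e4, e5] at hs
  have h7 : K.num (v ∆ A) = K.num z + 2 := by
    rw [e3, B1.num_flip_loop hK l1, B1.num_flip_loop hK lz']
  omega

/-- shape of nonvanishing terms -/
theorem shape (hK : K.IsSys eta) {s0 : Bool} (hN : K.NumP s0) (hC : K.CrsP s0)
    {v G A : Finset X} (hG : Hom v G) (hl : ∀ c ∈ G, K.Loop (v ∆ G) c) (hAG : A ⊆ G)
    (h1 : K.AC s0 v A) (h2 : K.AC s0 (v ∆ A) (G \ A)) :
    G.card = 2 ∨ G.card = 3 ∨ (G.card = 4 ∧ ∀ c ∈ G, K.Loop v c) := by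
  have hA : Hom v A := hom_sub hG hAG
  have hA' : Hom (v ∆ A) (G \ A) := hom_flip hG Finset.sdiff_subset (by
    intro c hc c' hc'
    rw [Finset.mem_sdiff] at hc hc'
    grind)
  have hGA : (v ∆ A) ∆ (G \ A) = v ∆ G := (B1.sd_split v hAG).symm
  have hcard : G.card = A.card + (G \ A).card := by
    rw [Finset.card_sdiff_of_subset hAG]
    have := Finset.card_le_card hAG
    omega
  have hAne : A.Nonempty := by
    rw [Finset.nonempty_iff_ne_empty]
    rintro rfl
    exact ac_empty h1
  have hApos := Finset.card_pos.2 hAne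
  have hC0 := hK.toIsCore
  rcases last_small hK hN hC hA' h2 (by
    rw [hGA]; exact fun c hc => hl c (Finset.sdiff_subset hc)) with
    ⟨e, he, hne⟩ | ⟨l, r, hlr, hle, hre, hcr⟩
  · -- the last set is a single nonloop
    rw [he, Finset.card_singleton] at hcard
    have hGA' : v ∆ G = (v ∆ A) ∆ {e} := by rw [← hGA, he]
    have hl' : ∀ c ∈ A, K.Loop ((v ∆ A) ∆ {e}) c := fun c hc => hGA' ▸ hl c (hAG hc)
    rcases h1 with h1 | h1
    · -- A is parallel
      have : A.card ≤ 2 := by
        by_contra hcon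
        have h3 : 2 < A.card := by omega
        obtain ⟨a, b, c, ha, hb, hc, hab, hac, hbc⟩ := Finset.two_lt_card_iff.1 h3
        refine no_double hC0 hN hA (Or.inl h1) hne hl' ha hb hab
          (Or.inl (par_sub h1 (Finset.erase_subset _ _) ⟨b, Finset.mem_erase.2 ⟨hab.symm, hb⟩⟩))
          (Or.inl (par_sub h1 (Finset.erase_subset _ _) ⟨a, Finset.mem_erase.2 ⟨hab, ha⟩⟩))
          (Or.inl (par_sub h1 ((Finset.erase_subset _ _).trans (Finset.erase_subset _ _))
            ⟨c, Finset.mem_erase.2 ⟨hbc.symm, Finset.mem_erase.2 ⟨hac.symm, hc⟩⟩⟩))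
      omega
    · -- A is a crossed bunch
      have hb := (bun_iff hK hC hA).1 h1
      obtain ⟨⟨i, hi, hi'⟩, ⟨j, hj, hj'⟩, hcr⟩ := hb
      have hij : i ≠ j := by rintro rfl; rw [hi'] at hj'; exact absurd hj' (by simp)
      -- at most three arcs
      have hsub : ∀ B ⊆ A, (∃ i ∈ B, eta i = true) → (∃ j ∈ B, eta j = false) → K.AC s0 v B :=
        fun B hB h h' => Or.inr (bun_sub hK hC hA h1 hB h h')
      by_cases h2' : A.card = 1
      · omega
      by_cases h3' : A.card = 2
      · omega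
      by_cases h3 : A.card = 3
      · right; right
        refine ⟨by omega, ?_⟩
        -- e is a loop at v
        have he' : K.Loop v e := by
          obtain ⟨c, hc, hci, hcj⟩ : ∃ c ∈ A, c ≠ i ∧ c ≠ j := by
            by_contra hcon
            push Not at hcon
            have : A ⊆ {i, j} := by
              intro x hx
              simp only [Finset.mem_insert, Finset.mem_singleton]
              by_cases hxi : x = i
              · exact Or.inl hxi
              · exact Or.inr (hcon x hx hxi)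
            have := Finset.card_le_card this
            have := Finset.card_le_two (a := i) (b := j)
            omega
          have h4 := loop_erase hC0 hN hA (Or.inr h1) hne hc (hl' c hc)
            (hsub _ (Finset.erase_subset _ _) ⟨i, Finset.mem_erase.2 ⟨hci.symm, hi⟩, hi'⟩
              ⟨j, Finset.mem_erase.2 ⟨hcj.symm, hj⟩, hj'⟩)
          have h5 : A.erase c = {i, j} := by
            symm
            apply Finset.eq_of_subset_of_card_le
            · intro x hx
              simp only [Finset.mem_insert, Finset.mem_singleton] at hx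
              rcases hx with rfl | rfl
              · exact Finset.mem_erase.2 ⟨hci.symm, hi⟩
              · exact Finset.mem_erase.2 ⟨hcj.symm, hj⟩
            · rw [Finset.card_erase_of_mem hc, Finset.card_pair hij]; omega
          rw [h5, sd_pair _ hij] at h4
          have h6 := crs_inter (hcr i hi j hj hi' hj')
          exact (same_of_inter hC0 h6.1 h6.2.1 h6.2.2 _ _).1 h4
        intro c hc
        by_cases hcA : c ∈ A
        · cases hec : eta c
          · exact (crs_inter (hcr i hi c hcA hi' hec)).2.1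
          · exact (crs_inter (hcr c hcA j hj hec hj')).1
        · have : c ∈ G \ A := Finset.mem_sdiff.2 ⟨hc, hcA⟩
          rw [he, Finset.mem_singleton] at this
          rw [this]; exact he'
      · exfalso
        have h4 : 4 ≤ A.card := by omega
        -- two arcs can be erased
        obtain ⟨c, hc, c', hc', hcc, ⟨p, hp, hp'⟩, ⟨q, hq, hq'⟩⟩ : ∃ c ∈ A, ∃ c' ∈ A, c ≠ c' ∧
            (∃ p ∈ (A.erase c).erase c', eta p = true) ∧
            (∃ q ∈ (A.erase c).erase c', eta q = false) := by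
          have hfilt : (A.filter fun x => eta x = true).card +
              (A.filter fun x => ¬ eta x = true).card = A.card :=
            Finset.card_filter_add_card_filter_not _
          by_cases hL : 2 < (A.filter fun x => eta x = true).card
          · obtain ⟨a, b, c, ha, hb, hc, hab, hac, hbc⟩ := Finset.two_lt_card_iff.1 hL
            rw [Finset.mem_filter] at ha hb hc
            refine ⟨a, ha.1, b, hb.1, hab, ⟨c, ?_, hc.2⟩, ⟨j, ?_, hj'⟩⟩
            · exact Finset.mem_erase.2 ⟨hbc.symm, Finset.mem_erase.2 ⟨hac.symm, hc.1⟩⟩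
            · refine Finset.mem_erase.2 ⟨?_, Finset.mem_erase.2 ⟨?_, hj⟩⟩
              · rintro rfl; rw [hj'] at hb; exact absurd hb.2 (by simp)
              · rintro rfl; rw [hj'] at ha; exact absurd ha.2 (by simp)
          by_cases hR : 2 < (A.filter fun x => ¬ eta x = true).card
          · obtain ⟨a, b, c, ha, hb, hc, hab, hac, hbc⟩ := Finset.two_lt_card_iff.1 hR
            rw [Finset.mem_filter] at ha hb hc
            refine ⟨a, ha.1, b, hb.1, hab, ⟨i, ?_, hi'⟩, ⟨c, ?_, by simpa using hc.2⟩⟩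
            · refine Finset.mem_erase.2 ⟨?_, Finset.mem_erase.2 ⟨?_, hi⟩⟩
              · rintro rfl; exact hb.2 hi'
              · rintro rfl; exact ha.2 hi'
            · exact Finset.mem_erase.2 ⟨hbc.symm, Finset.mem_erase.2 ⟨hac.symm, hc.1⟩⟩
          · have hL2 : 1 < (A.filter fun x => eta x = true).card := by omega
            have hR2 : 1 < (A.filter fun x => ¬ eta x = true).card := by omega
            obtain ⟨a, b, ha, hb, hab⟩ := Finset.one_lt_card_iff.1 hL2
            obtain ⟨a', b', ha', hb', hab'⟩ := Finset.one_lt_card_iff.1 hR2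
            rw [Finset.mem_filter] at ha hb ha' hb'
            refine ⟨a, ha.1, a', ha'.1, ?_, ⟨b, ?_, hb.2⟩, ⟨b', ?_, by simpa using hb'.2⟩⟩
            · rintro rfl; exact ha'.2 ha.2
            · refine Finset.mem_erase.2 ⟨?_, Finset.mem_erase.2 ⟨hab.symm, hb.1⟩⟩
              rintro rfl; exact ha'.2 hb.2
            · refine Finset.mem_erase.2 ⟨hab'.symm, Finset.mem_erase.2 ⟨?_, hb'.1⟩⟩
              rintro rfl; exact hb'.2 ha.2
        have hsub1 : (A.erase c).erase c' ⊆ A.erase c := Finset.erase_subset _ _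
        have hsub2 : (A.erase c).erase c' ⊆ A.erase c' := by
          rw [Finset.erase_right_comm]; exact Finset.erase_subset _ _
        exact no_double hC0 hN hA (Or.inr h1) hne hl' hc hc' hcc
          (hsub _ (Finset.erase_subset _ _) ⟨p, hsub1 hp, hp'⟩ ⟨q, hsub1 hq, hq'⟩)
          (hsub _ (Finset.erase_subset _ _) ⟨p, hsub2 hp, hp'⟩ ⟨q, hsub2 hq, hq'⟩)
          (hsub _ (hsub1.trans (Finset.erase_subset _ _)) ⟨p, hp, hp'⟩ ⟨q, hq, hq'⟩)
  · -- the last set is an interleaved pair
    have hlrne : l ≠ r := by rintro rfl; rw [hle] at hre; exact absurd hre (by simp)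
    rw [hlr, Finset.card_pair hlrne] at hcard
    have hci := crs_inter hcr
    have hsame : ∀ p q, K.same (v ∆ G) p q ↔ K.same (v ∆ A) p q := by
      intro p q
      rw [← hGA, hlr, sd_pair _ hlrne]
      exact same_of_inter hC0 hci.1 hci.2.1 hci.2.2 p q
    have key : ∀ c ∈ A, ¬ K.AC s0 v (A.erase c) := fun c hc h' =>
      (ac_erase hC0 hN hA hc h1 h').2.1 ((hsame _ _).1 (hl c (hAG hc)))
    rcases h1 with h1 | h1
    · obtain ⟨a, ha⟩ := hAne
      have : A.erase a = ∅ := by
        by_contra h'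
        exact key a ha
          (Or.inl (par_sub h1 (Finset.erase_subset _ _) (Finset.nonempty_iff_ne_empty.2 h')))
      have h5 := Finset.card_erase_add_one ha
      rw [this, Finset.card_empty] at h5
      omega
    · have hb := (bun_iff hK hC hA).1 h1
      obtain ⟨⟨i, hi, hi'⟩, ⟨j, hj, hj'⟩, hcr'⟩ := hb
      have hij : i ≠ j := by rintro rfl; rw [hi'] at hj'; exact absurd hj' (by simp)
      have hAe : A = {i, j} := by
        ext x
        simp only [Finset.mem_insert, Finset.mem_singleton]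
        constructor
        · intro hx
          by_contra hne
          push Not at hne
          exact key x hx (Or.inr (bun_sub hK hC hA h1 (Finset.erase_subset _ _)
            ⟨i, Finset.mem_erase.2 ⟨hne.1.symm, hi⟩, hi'⟩
            ⟨j, Finset.mem_erase.2 ⟨hne.2.symm, hj⟩, hj'⟩))
        · rintro (rfl | rfl) <;> assumption
      right; right
      have hAc : A.card = 2 := by rw [hAe, Finset.card_pair hij]
      refine ⟨by omega, ?_⟩
      have hci' := crs_inter (hcr' i hi j hj hi' hj')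
      intro c hc
      have h6 := (hsame _ _).1 (hl c hc)
      rw [hAe, sd_pair _ hij] at h6
      exact (same_of_inter hC0 hci'.1 hci'.2.1 hci'.2.2 _ _).1 h6

end count

/-! ### sums over small power sets -/

theorem sum2 (f : Finset X → ZMod 2) {x y : X} (h : x ≠ y) :
    ∑ A ∈ ({x, y} : Finset X).powerset, f A = (f ∅ + f {y}) + (f {x} + f {x, y}) := by
  rw [Finset.sum_powerset_insert (by simpa using h)]
  have : ({y} : Finset X) = insert y ∅ := rfl
  rw [this, Finset.sum_powerset_insert (by simp), Finset.sum_powerset_insert (by simp)]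
  simp

theorem sum3 (f : Finset X → ZMod 2) {x y z : X} (hxy : x ≠ y) (hxz : x ≠ z) (hyz : y ≠ z) :
    ∑ A ∈ ({x, y, z} : Finset X).powerset, f A =
      ((f ∅ + f {z}) + (f {y} + f {y, z})) +
      ((f {x} + f {x, z}) + (f {x, y} + f {x, y, z})) := by
  rw [Finset.sum_powerset_insert (by simp [hxy, hxz]), sum2 _ hyz, sum2 _ hyz]
  simp

theorem sum4 (f : Finset X → ZMod 2) {x y z t : X} (hxy : x ≠ y) (hxz : x ≠ z) (hxt : x ≠ t)
    (hyz : y ≠ z) (hyt : y ≠ t) (hzt : z ≠ t) :
    ∑ A ∈ ({x, y, z, t} : Finset X).powerset, f A =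
      (((f ∅ + f {t}) + (f {z} + f {z, t})) + ((f {y} + f {y, t}) + (f {y, z} + f {y, z, t}))) +
      (((f {x} + f {x, t}) + (f {x, z} + f {x, z, t})) +
        ((f {x, y} + f {x, y, t}) + (f {x, y, z} + f {x, y, z, t}))) := by
  rw [Finset.sum_powerset_insert (by simp [hxy, hxz, hxt]), sum3 _ hyz hyt hzt,
    sum3 _ hyz hyt hzt]
  simp

open Classical in
/-- the terms of the sum -/
noncomputable def F (K : Cube X E) (s0 : Bool) (v G A : Finset X) : ZMod 2 :=
  if K.AC s0 v A ∧ K.AC s0 (v ∆ A) (G \ A) then 1 else 0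

theorem F_empty {s0 : Bool} {v G : Finset X} : F K s0 v G ∅ = 0 :=
  if_neg fun h => ac_empty h.1

theorem F_full {s0 : Bool} {v G : Finset X} : F K s0 v G G = 0 :=
  if_neg fun h => ac_empty (by rw [Finset.sdiff_self] at h; exact h.2)

theorem co_state (v : Finset X) {A G : Finset X} (hAG : A ⊆ G) :
    v ∆ A = (v ∆ G) ∆ (G \ A) := by
  rw [B1.sd_split v hAG, B1.sd_cancel]

/-- all but one arc -/
theorem F_co {s0 : Bool} (hK : K.IsCore) {v G A : Finset X} {e : X}
    (hG : G \ A = {e}) (hAG : A ⊆ G) (hl : K.Loop (v ∆ G) e) :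
    K.AC s0 (v ∆ A) (G \ A) := by
  rw [hG, ac_single hK]
  have h : v ∆ G = (v ∆ A) ∆ {e} := by rw [← hG]; exact B1.sd_split v hAG
  rw [h] at hl
  have := hK.split _ _ hl
  rwa [B1.sd_cancel] at this

/-! ### the two parity computations -/

theorem parity3 (b1 b2 s : ℤ) (r1 : b1 = 0 ∨ b1 = 1 ∨ b1 = -1) (r2 : b2 = 0 ∨ b2 = 1 ∨ b2 = -1)
    (hs : s = 1 ∨ s = -1) (hnz : ¬ (b1 = 0 ∧ b2 = 0)) :
    (((0 : ZMod 2) + 0) + ((if b1 ≠ 0 ∧ b1 = s then 1 else 0) + (if b1 = 0 ∧ b2 = s then 1 else 0))) +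
    (((if b2 ≠ 0 ∧ b2 = s then 1 else 0) + (if b2 = 0 ∧ b1 = s then 1 else 0)) +
     ((if b1 ≠ 0 ∧ b2 ≠ 0 ∧ b1 + b2 = 0 then 1 else 0) + 0)) = 0 := by
  have h11 : (1 : ZMod 2) + 1 = 0 := by decide
  rcases r1 with h1 | h1 | h1 <;> rcases r2 with h2 | h2 | h2 <;>
    rcases hs with h3 | h3 <;> subst h1 <;> subst h2 <;> subst h3 <;> simp [h11] at hnz ⊢

theorem parity4 (a11 a12 a21 a22 b11 b12 b21 b22 s : ℤ)
    (r11 : a11 = 0 ∨ a11 = 1 ∨ a11 = -1) (r12 : a12 = 0 ∨ a12 = 1 ∨ a12 = -1)
    (r21 : a21 = 0 ∨ a21 = 1 ∨ a21 = -1) (r22 : a22 = 0 ∨ a22 = 1 ∨ a22 = -1)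
    (hs : s = 1 ∨ s = -1)
    (t1 : b11 * a11 + b21 * a21 = 1) (t2 : b12 * a12 + b22 * a22 = 1)
    (t3 : b11 * a12 + b21 * a22 = 0) (t4 : b12 * a11 + b22 * a21 = 0) :
    ((((0 : ZMod 2) + 0) + (0 + 0)) + ((0 + (if a22 = s ∧ b11 = s then 1 else 0)) +
      ((if a21 = s ∧ b12 = s then 1 else 0) + (if a21 = s ∧ a22 = s then 1 else 0)))) +
    (((0 + (if a12 = s ∧ b21 = s then 1 else 0)) + ((if a11 = s ∧ b22 = s then 1 else 0) +
      (if a11 = s ∧ a12 = s then 1 else 0))) +
      ((0 + (if a12 = s ∧ a22 = s then 1 else 0)) +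
       ((if a11 = s ∧ a21 = s then 1 else 0) + 0))) = 0 := by
  have h11 : (1 : ZMod 2) + 1 = 0 := by decide
  have e1 : b11 * (a11 * a22 - a12 * a21) = a22 := by linear_combination a22 * t1 - a21 * t3
  have e2 : b21 * (a11 * a22 - a12 * a21) = -a12 := by linear_combination -a12 * t1 + a11 * t3
  have e3 : b12 * (a11 * a22 - a12 * a21) = -a21 := by linear_combination -a21 * t2 + a22 * t4
  have e4 : b22 * (a11 * a22 - a12 * a21) = a11 := by linear_combination a11 * t2 - a12 * t4
  clear t3 t4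
  rcases r11 with h | h | h <;> rcases r12 with h' | h' | h' <;> 
  rcases r21 with h'' | h'' | h'' <;> rcases r22 with h''' | h''' | h''' <;>
  subst h <;> subst h' <;> subst h'' <;> subst h''' <;>
  first
  | (exfalso; omega)
  | (have g1 : b11 = 0 ∨ b11 = 1 ∨ b11 = -1 := by omega
     have g2 : b12 = 0 ∨ b12 = 1 ∨ b12 = -1 := by omega
     have g3 : b21 = 0 ∨ b21 = 1 ∨ b21 = -1 := by omega
     have g4 : b22 = 0 ∨ b22 = 1 ∨ b22 = -1 := by omega
     rcases g1 with g | g | g <;> first | (exfalso; omega) | skip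
     all_goals
     rcases g2 with g' | g' | g' <;> first | (exfalso; omega) | skip
     all_goals
     rcases g3 with g'' | g'' | g'' <;> first | (exfalso; omega) | skip
     all_goals
     rcases g4 with g''' | g''' | g''' <;> first | (exfalso; omega) | skip
     all_goals
     subst g; subst g'; subst g''; subst g'''
     rcases hs with hs | hs <;> subst hs <;> simp [h11])

section final
variable [Finite E]

theorem two (hK : K.IsCore) {s0 : Bool} {v : Finset X} {x y : X} (hxy : x ≠ y) :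
    ∑ A ∈ ({x, y} : Finset X).powerset, F K s0 v {x, y} A = 0 := by
  rw [sum2 _ hxy, F_empty, F_full]
  have e1 : ({x, y} : Finset X) \ {y} = {x} := by
    ext a; simp only [Finset.mem_sdiff, Finset.mem_insert, Finset.mem_singleton]
    constructor
    · rintro ⟨h1 | h1, h2⟩
      · exact h1
      · exact absurd h1 h2
    · rintro rfl; exact ⟨Or.inl rfl, hxy⟩
  have e2 : ({x, y} : Finset X) \ {x} = {y} := by
    ext a; simp only [Finset.mem_sdiff, Finset.mem_insert, Finset.mem_singleton]
    constructor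
    · rintro ⟨h1 | h1, h2⟩
      · exact absurd h1 h2
      · exact h1
    · rintro rfl; exact ⟨Or.inr rfl, hxy.symm⟩
  have h1 : F K s0 v {x, y} {y} = F K s0 v {x, y} {x} := by
    classical
    unfold F
    have : (K.AC s0 v {y} ∧ K.AC s0 (v ∆ {y}) ({x, y} \ {y})) ↔
        (K.AC s0 v {x} ∧ K.AC s0 (v ∆ {x}) ({x, y} \ {x})) := by
      rw [e1, e2, ac_single hK, ac_single hK, ac_single hK, ac_single hK]
      rw [nonloop_iff_num hK, nonloop_iff_num hK, nonloop_iff_num hK, nonloop_iff_num hK,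
        sd_comm v {y} {x}]
      have h1 := B1.num_le hK v {y}
      have h2 := B1.num_ge hK v {y}
      have h3 := B1.num_le hK v {x}
      have h4 := B1.num_ge hK v {x}
      have h5 := B1.num_le hK (v ∆ {x}) {y}
      have h6 := B1.num_ge hK (v ∆ {x}) {y}
      have h7 := B1.num_le hK (v ∆ {y}) {x}
      have h8 := B1.num_ge hK (v ∆ {y}) {x}
      rw [Finset.card_singleton] at *
      rw [sd_comm v {y} {x}] at h7 h8
      omega
    simp only [this]
  rw [h1]
  rw [zero_add, add_zero, CharTwo.add_self_eq_zero]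

theorem sg_cases (s0 : Bool) : sg s0 = 1 ∨ sg s0 = -1 := by
  cases s0 <;> simp [sg]

/-- a flipped pair in a homogeneous set -/
theorem hom_w {v G : Finset X} (hG : Hom v G) {c y : X} (hc : c ∈ G) (hy : y ∈ G) :
    c ∈ v ∆ G ↔ y ∈ v ∆ G := by
  have := hG c hc y hy
  simp only [mem_sd]
  grind

theorem hom_triple {v G : Finset X} (hG : Hom v G) {x y z : X} (hx : x ∈ G) (hy : y ∈ G)
    (hz : z ∈ G) : Hom v {x, y, z} := by
  apply hom_sub hG
  intro c hc
  simp only [Finset.mem_insert, Finset.mem_singleton] at hc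
  rcases hc with rfl | rfl | rfl <;> assumption

/-- three arcs, two of them on the same side -/
theorem three (hK : K.IsSys eta) {s0 : Bool} (hC : K.CrsP s0)
    {v : Finset X} {l1 l2 r : X} (h12 : l1 ≠ l2) (he : eta l1 = eta l2) (he' : eta l1 ≠ eta r)
    (hG : Hom v {l1, l2, r}) (hl : ∀ c ∈ ({l1, l2, r} : Finset X), K.Loop (v ∆ {l1, l2, r}) c)
    (hnum : K.num (v ∆ {l1, l2, r}) + 1 = K.num v) :
    ∑ A ∈ ({l1, l2, r} : Finset X).powerset, F K s0 v {l1, l2, r} A = 0 := by
  classical
  have hC0 := hK.toIsCore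
  set G : Finset X := {l1, l2, r} with hGdef
  have h1r : l1 ≠ r := fun h => he' (h ▸ rfl)
  have h2r : l2 ≠ r := fun h => he' (h ▸ he)
  have m1 : l1 ∈ G := by simp [hGdef]
  have m2 : l2 ∈ G := by simp [hGdef]
  have mr : r ∈ G := by simp [hGdef]
  set w := v ∆ G with hw
  have lw1 := hl l1 m1
  have lw2 := hl l2 m2
  have lwr := hl r mr
  -- complements
  have s1 : G \ {l1} = {l2, r} := by
    ext a; simp only [hGdef, Finset.mem_sdiff, Finset.mem_insert, Finset.mem_singleton]
    constructor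
    · grind
    · rintro (rfl | rfl)
      · exact ⟨by grind, h12.symm⟩
      · exact ⟨by grind, h1r.symm⟩
  have s2 : G \ {l2} = {l1, r} := by
    ext a; simp only [hGdef, Finset.mem_sdiff, Finset.mem_insert, Finset.mem_singleton]
    constructor
    · grind
    · rintro (rfl | rfl)
      · exact ⟨by grind, h12⟩
      · exact ⟨by grind, h2r.symm⟩
  have s12 : G \ {l1, l2} = {r} := by
    ext a; simp only [hGdef, Finset.mem_sdiff, Finset.mem_insert, Finset.mem_singleton]
    constructor
    · grind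
    · rintro rfl
      exact ⟨by grind, by push Not; exact ⟨h1r.symm, h2r.symm⟩⟩
  have s1r : G \ {l1, r} = {l2} := by
    ext a; simp only [hGdef, Finset.mem_sdiff, Finset.mem_insert, Finset.mem_singleton]
    constructor
    · grind
    · rintro rfl
      exact ⟨by grind, by push Not; exact ⟨h12.symm, h2r⟩⟩
  have s2r : G \ {l2, r} = {l1} := by
    ext a; simp only [hGdef, Finset.mem_sdiff, Finset.mem_insert, Finset.mem_singleton]
    constructor
    · grind
    · rintro rfl
      exact ⟨by grind, by push Not; exact ⟨h12, h1r⟩⟩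
  have sub12 : ({l1, l2} : Finset X) ⊆ G := by
    intro a ha; simp only [hGdef, Finset.mem_insert, Finset.mem_singleton] at ha ⊢; grind
  have sub1r : ({l1, r} : Finset X) ⊆ G := by
    intro a ha; simp only [hGdef, Finset.mem_insert, Finset.mem_singleton] at ha ⊢; grind
  have sub2r : ({l2, r} : Finset X) ⊆ G := by
    intro a ha; simp only [hGdef, Finset.mem_insert, Finset.mem_singleton] at ha ⊢; grind
  have sub1 : ({l1} : Finset X) ⊆ G := by simpa using m1
  have sub2 : ({l2} : Finset X) ⊆ G := by simpa using m2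
  have subr : ({r} : Finset X) ⊆ G := by simpa using mr
  -- states
  have w1 : v ∆ {l1} = (w ∆ {r}) ∆ {l2} := by
    rw [co_state v sub1, s1, ← hw, sd_pair _ h2r]
  have w2 : v ∆ {l2} = (w ∆ {r}) ∆ {l1} := by
    rw [co_state v sub2, s2, ← hw, sd_pair _ h1r]
  have wr : v ∆ {r} = (w ∆ {l2}) ∆ {l1} := by
    have : G \ {r} = {l1, l2} := by
      ext a; simp only [hGdef, Finset.mem_sdiff, Finset.mem_insert, Finset.mem_singleton]
      constructor
      · grind
      · rintro (rfl | rfl)
        · exact ⟨by grind, h1r⟩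
        · exact ⟨by grind, h2r⟩
    rw [co_state v subr, this, ← hw, sd_pair _ h12]
  have w12 : v ∆ {l1, l2} = w ∆ {r} := by
    rw [co_state v sub12, s12, ← hw]
  -- sides
  have e12 : M K w l1 l2 = 0 :=
    M_zero_of_eta hK h12 (hom_w hG m1 m2) lw1 lw2 he
  set b1 := M K w l1 r with hb1
  set b2 := M K w l2 r with hb2
  have z1 : b1 = 0 ↔ K.Loop (w ∆ {r}) l1 := M_eq_zero hC0 lw1 lwr
  have z2 : b2 = 0 ↔ K.Loop (w ∆ {r}) l2 := M_eq_zero hC0 lw2 lwr
  have L1 : K.Loop v l1 ↔ b2 = 0 := by
    rw [z2, loop_iff_num hC0, w1]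
    constructor
    · intro h
      by_contra h'
      rw [num_inter hC0 lwr h'] at h
      omega
    · intro h
      rw [num_noninter hC0 lwr h]
      omega
  have L2 : K.Loop v l2 ↔ b1 = 0 := by
    rw [z1, loop_iff_num hC0, w2]
    constructor
    · intro h
      by_contra h'
      rw [num_inter hC0 lwr h'] at h
      omega
    · intro h
      rw [num_noninter hC0 lwr h]
      omega
  have Lr : K.Loop v r := by
    rw [loop_iff_num hC0, wr, num_noninter hC0 lw2 ((M_eq_zero hC0 lw1 lw2).1 e12)]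
    omega
  have r1 := M_range (K := K) w l1 r
  have r2 := M_range (K := K) w l2 r
  rw [← hb1] at r1
  rw [← hb2] at r2
  have hr1 : l1 ∈ v ↔ r ∈ v := hG _ m1 _ mr
  have hr2 : l2 ∈ v ↔ r ∈ v := hG _ m2 _ mr
  have h12v : l1 ∈ v ↔ l2 ∈ v := hG _ m1 _ m2
  -- telescoping
  have t1 : b2 = 0 → b1 * M K v l1 r = 1 := by
    intro hb
    have := tele' hK (v ∆ {r}) G (K.tail r) (K.tail r)
    rw [sd_comm v {r} G, ← hw, hGdef, Finset.sum_insert (by simp [h12, h1r]),
      Finset.sum_insert (by simp [h2r]), Finset.sum_singleton] at this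
    change (if eta l1 = true then (1:ℤ) else -1) * b1 * M K v l1 r +
      ((if eta l2 = true then (1:ℤ) else -1) * b2 * M K v l2 r +
      (if eta r = true then (1:ℤ) else -1) * M K w r r * M K v r r) = 0 at this
    rw [M_self hC0 lwr, M_self hC0 Lr, hb, ← he] at this
    revert this he'
    cases eta l1 <;> cases eta r <;> simp <;> intro h <;> linarith
  have t2 : b1 = 0 → b2 * M K v l2 r = 1 := by
    intro hb
    have := tele' hK (v ∆ {r}) G (K.tail r) (K.tail r)
    rw [sd_comm v {r} G, ← hw, hGdef, Finset.sum_insert (by simp [h12, h1r]),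
      Finset.sum_insert (by simp [h2r]), Finset.sum_singleton] at this
    change (if eta l1 = true then (1:ℤ) else -1) * b1 * M K v l1 r +
      ((if eta l2 = true then (1:ℤ) else -1) * b2 * M K v l2 r +
      (if eta r = true then (1:ℤ) else -1) * M K w r r * M K v r r) = 0 at this
    rw [M_self hC0 lwr, M_self hC0 Lr, hb, ← he] at this
    revert this he'
    cases eta l1 <;> cases eta r <;> simp <;> intro h <;> linarith
  have hCrs1 : K.Crs s0 v l1 r ↔ b2 = 0 ∧ b1 = sg s0 := by
    rw [crs_iff hC0, L1]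
    constructor
    · rintro ⟨h1, _, h3⟩
      have := t1 h1
      rw [h3] at this
      refine ⟨h1, ?_⟩
      rcases r1 with h | h | h <;> rcases sg_cases s0 with h' | h' <;>
        rw [h, h'] at this <;> rw [h, h'] <;> omega
    · rintro ⟨h1, h2⟩
      refine ⟨h1, Lr, ?_⟩
      have := t1 h1
      rw [h2] at this
      rcases sg_cases s0 with h' | h' <;> rw [h'] at this ⊢ <;> omega
  have hCrs2 : K.Crs s0 v l2 r ↔ b1 = 0 ∧ b2 = sg s0 := by
    rw [crs_iff hC0, L2]
    constructor
    · rintro ⟨h1, _, h3⟩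
      have := t2 h1
      rw [h3] at this
      refine ⟨h1, ?_⟩
      rcases r2 with h | h | h <;> rcases sg_cases s0 with h' | h' <;>
        rw [h, h'] at this <;> rw [h, h'] <;> omega
    · rintro ⟨h1, h2⟩
      refine ⟨h1, Lr, ?_⟩
      have := t2 h1
      rw [h2] at this
      rcases sg_cases s0 with h' | h' <;> rw [h'] at this ⊢ <;> omega
  -- parallel pair
  have hPar : K.Par v {l1, l2} ↔ b1 ≠ 0 ∧ b2 ≠ 0 ∧ b1 + b2 = 0 := by
    have ht := tele' hK v {l1, l2} (K.tail r) (K.tail l1)
    rw [w12, Finset.sum_insert (by simpa using h12), Finset.sum_singleton] at ht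
    change (if eta l1 = true then (1:ℤ) else -1) * b1 * dl K v l1 (K.tail l1) +
      (if eta l2 = true then (1:ℤ) else -1) * b2 * dl K v l2 (K.tail l1) = 0 at ht
    have hd1 : b2 ≠ 0 → dl K v l1 (K.tail l1) = 1 := by
      intro h
      have h3 : ¬ K.same v (K.head l1) (K.tail l1) := fun h' =>
        h (L1.1 (B1.symm hC0 h'))
      simp only [dl, B1.refl hC0, h3, if_true, if_false, sub_zero]
    constructor
    · intro h
      have n1 := par_nonloop hC0 h (c := l1) (by simp)
      have n2 := par_nonloop hC0 h (c := l2) (by simp)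
      rw [L1] at n1
      rw [L2] at n2
      refine ⟨n2, n1, ?_⟩
      obtain ⟨_, a, b, h1, h2⟩ := h
      obtain ⟨h3, h4⟩ := h2 l1 (by simp)
      obtain ⟨h5, h6⟩ := h2 l2 (by simp)
      have hd2 : dl K v l2 (K.tail l1) = 1 := by
        have h7 : K.same v (K.tail l2) (K.tail l1) := B1.trans hC0 h5 (B1.symm hC0 h3)
        have h8 : ¬ K.same v (K.head l2) (K.tail l1) := fun h' =>
          h1 (B1.trans hC0 (B1.symm hC0 h3) (B1.trans hC0 (B1.symm hC0 h') h6))
        simp only [dl, h7, h8, if_true, if_false, sub_zero]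
      rw [hd1 n1, hd2, ← he] at ht
      revert ht
      cases eta l1 <;> simp <;> intro h <;> linarith
    · rintro ⟨n2, n1, hs⟩
      have N1 : ¬ K.Loop v l1 := fun h => n1 (L1.1 h)
      have N2 : ¬ K.Loop v l2 := fun h => n2 (L2.1 h)
      have hlp : K.Loop (v ∆ {l1}) l2 := by
        rw [loop_iff_num hC0]
        have h1 := B1.num_flip_nonloop hC0 N1
        have h2 : (v ∆ {l1}) ∆ {l2} = w ∆ {r} := by
          rw [← w12, sd_pair _ h12, sd_comm]
        have h3 := B1.num_flip_loop hC0 lwr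
        rw [h2, h3]
        omega
      rcases B1.join_of_loop hC0 N1 N2 hlp with ⟨h1, h2⟩ | ⟨h1, h2⟩
      · refine ⟨by simp, K.tail l1, K.head l1, N1, ?_⟩
        intro g hg
        simp only [Finset.mem_insert, Finset.mem_singleton] at hg
        rcases hg with rfl | rfl
        · exact ⟨B1.refl hC0 _ _, B1.refl hC0 _ _⟩
        · exact ⟨h1, h2⟩
      · exfalso
        have hd2 : dl K v l2 (K.tail l1) = -1 := by
          have h8 : ¬ K.same v (K.tail l2) (K.tail l1) := fun h' =>
            N1 (B1.trans hC0 (B1.symm hC0 h') h1)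
          simp only [dl, h2, h8, if_true, if_false]
          omega
        rw [hd1 n1, hd2, ← he] at ht
        have : b1 = b2 := by
          revert ht
          cases eta l1 <;> simp <;> intro h <;> linarith
        omega
  -- the values
  have F1 : F K s0 v G {l1} = if b2 ≠ 0 ∧ b2 = sg s0 then 1 else 0 := by
    unfold F
    refine if_congr ?_ rfl rfl
    rw [s1, ac_single hC0, L1, ac_pair_ne hK hC (hom_flip1 hr2 h12.symm h1r.symm)
      (fun h => he' (he.trans h))]
    refine and_congr_right fun _ => ?_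
    have h3 : v ∆ {l1} = (w ∆ {r}) ∆ {l2} := w1
    rw [h3, crs_flip_iff hC0 hC h2r (hom_w hG m2 mr), crs_iff hC0]
    exact ⟨fun h => h.2.2, fun h => ⟨lw2, lwr, h⟩⟩
  have F2 : F K s0 v G {l2} = if b1 ≠ 0 ∧ b1 = sg s0 then 1 else 0 := by
    unfold F
    refine if_congr ?_ rfl rfl
    rw [s2, ac_single hC0, L2, ac_pair_ne hK hC (hom_flip1 hr1 h12 h2r.symm) he']
    refine and_congr_right fun _ => ?_
    rw [w2, crs_flip_iff hC0 hC h1r (hom_w hG m1 mr), crs_iff hC0]
    exact ⟨fun h => h.2.2, fun h => ⟨lw1, lwr, h⟩⟩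
  have Fr : F K s0 v G {r} = 0 := if_neg fun h => (ac_single hC0).1 h.1 Lr
  have F12 : F K s0 v G {l1, l2} = if b1 ≠ 0 ∧ b2 ≠ 0 ∧ b1 + b2 = 0 then 1 else 0 := by
    unfold F
    refine if_congr ?_ rfl rfl
    rw [ac_pair_eq hK hC h12v he, hPar]
    exact ⟨fun h => h.1, fun h => ⟨h, F_co hC0 s12 sub12 lwr⟩⟩
  have F1r : F K s0 v G {l1, r} = if b2 = 0 ∧ b1 = sg s0 then 1 else 0 := by
    unfold F
    refine if_congr ?_ rfl rfl
    rw [ac_pair_ne hK hC hr1 he', hCrs1]
    exact ⟨fun h => h.1, fun h => ⟨h, F_co hC0 s1r sub1r lw2⟩⟩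
  have F2r : F K s0 v G {l2, r} = if b1 = 0 ∧ b2 = sg s0 then 1 else 0 := by
    unfold F
    refine if_congr ?_ rfl rfl
    rw [ac_pair_ne hK hC hr2 (fun h => he' (he.trans h)), hCrs2]
    exact ⟨fun h => h.1, fun h => ⟨h, F_co hC0 s2r sub2r lw1⟩⟩
  -- not both zero
  have hnz : ¬ (b1 = 0 ∧ b2 = 0) := by
    rintro ⟨h1, h2⟩
    have i1 := B1.num_flip_nonloop hC0 (hC0.split w r lwr)
    have n1 : K.num (w ∆ {r}) = K.num w + 1 := B1.num_flip_loop hC0 lwr
    have n2 : K.num ((w ∆ {r}) ∆ {l1}) = K.num w + 2 := by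
      rw [B1.num_flip_loop hC0 (z1.1 h1)]; omega
    -- pairwise non interleaved
    have c12 := (M_eq_zero hC0 lw1 lw2).1 e12
    have hs : K.Spl w G := by
      apply B1.spl_of_pairwise hC0 hl
      have p1 : K.Loop (w ∆ {r}) l1 := z1.1 h1
      have p2 : K.Loop (w ∆ {r}) l2 := z2.1 h2
      have sym : ∀ c y, K.Loop w c → K.Loop w y → K.Loop (w ∆ {y}) c → K.Loop (w ∆ {c}) y := by
        intro c y hc hy h
        rw [loop_iff_num hC0, sd_comm, B1.num_flip_loop hC0 h, B1.num_flip_loop hC0 hc,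
          B1.num_flip_loop hC0 hy]
      intro c hc c' hc' hne
      simp only [hGdef, Finset.mem_insert, Finset.mem_singleton] at hc hc'
      rcases hc with rfl | rfl | rfl <;> rcases hc' with rfl | rfl | rfl
      · exact absurd rfl hne
      · exact sym _ _ lw1 lw2 c12
      · exact sym _ _ lw1 lwr p1
      · exact c12
      · exact absurd rfl hne
      · exact sym _ _ lw2 lwr p2
      · exact p1
      · exact p2
      · exact absurd rfl hne
    unfold Cube.Spl at hs
    have h5 : w ∆ G = v := by rw [hw, B1.sd_cancel]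
    have h6 : G.card = 3 := by
      rw [hGdef, Finset.card_insert_of_notMem (by simp [h12, h1r]), Finset.card_pair h2r]
    rw [h5, h6] at hs
    omega
  have hsum := sum3 (F K s0 v G) h12 h1r h2r
  rw [← hGdef] at hsum
  rw [hsum, F_empty, F_full, F1, F2, Fr, F12, F1r, F2r]
  exact parity3 b1 b2 (sg s0) r1 r2 (sg_cases s0) hnz

/-- four arcs, two on each side -/
theorem four (hK : K.IsSys eta) {s0 : Bool} (hC : K.CrsP s0)
    {v : Finset X} {i1 i2 j1 j2 : X} (hi : i1 ≠ i2) (hj : j1 ≠ j2)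
    (ei1 : eta i1 = true) (ei2 : eta i2 = true) (ej1 : eta j1 = false) (ej2 : eta j2 = false)
    (hG : Hom v {i1, i2, j1, j2})
    (hl : ∀ c ∈ ({i1, i2, j1, j2} : Finset X), K.Loop (v ∆ {i1, i2, j1, j2}) c)
    (hv : ∀ c ∈ ({i1, i2, j1, j2} : Finset X), K.Loop v c) :
    ∑ A ∈ ({i1, i2, j1, j2} : Finset X).powerset, F K s0 v {i1, i2, j1, j2} A = 0 := by
  classical
  have hC0 := hK.toIsCore
  set G : Finset X := {i1, i2, j1, j2} with hGdef
  have hne : ∀ {a b : X}, eta a = true → eta b = false → a ≠ b := by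
    rintro a b ha hb rfl
    rw [ha] at hb; exact absurd hb (by simp)
  have n11 : i1 ≠ j1 := hne ei1 ej1
  have n12 : i1 ≠ j2 := hne ei1 ej2
  have n21 : i2 ≠ j1 := hne ei2 ej1
  have n22 : i2 ≠ j2 := hne ei2 ej2
  have mi1 : i1 ∈ G := by simp [hGdef]
  have mi2 : i2 ∈ G := by simp [hGdef]
  have mj1 : j1 ∈ G := by simp [hGdef]
  have mj2 : j2 ∈ G := by simp [hGdef]
  set w := v ∆ G with hw
  have hww : ∀ {c y : X}, c ∈ G → y ∈ G → (c ∈ w ↔ y ∈ w) := fun hc hy => hom_w hG hc hy
  -- complements of pairs and triples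
  have c3 : ∀ {A : Finset X} {e : X}, e ∈ G → e ∉ A → (∀ c ∈ G, c ≠ e → c ∈ A) →
      (∀ c ∈ A, c ∈ G) → G \ A = {e} := by
    intro A e he heA h1 h2
    ext a; simp only [Finset.mem_sdiff, Finset.mem_singleton]
    constructor
    · rintro ⟨ha, hb⟩
      by_contra h; exact hb (h1 a ha h)
    · rintro rfl; exact ⟨he, heA⟩
  have c2 : ∀ {A : Finset X} {e f : X}, e ∈ G → f ∈ G → e ∉ A → f ∉ A →
      (∀ c ∈ G, c ≠ e → c ≠ f → c ∈ A) → (∀ c ∈ A, c ∈ G) → G \ A = {e, f} := by
    intro A e f he hf heA hfA h1 h2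
    ext a; simp only [Finset.mem_sdiff, Finset.mem_singleton, Finset.mem_insert]
    constructor
    · rintro ⟨ha, hb⟩
      by_contra h; push Not at h; exact hb (h1 a ha h.1 h.2)
    · rintro (rfl | rfl)
      · exact ⟨he, heA⟩
      · exact ⟨hf, hfA⟩
  -- singletons
  have Fs : ∀ c ∈ G, F K s0 v G {c} = 0 := fun c hc =>
    if_neg fun h => (ac_single hC0).1 h.1 (hv c hc)
  -- equal sides
  have Feq : ∀ c ∈ G, ∀ y ∈ G, eta c = eta y → F K s0 v G {c, y} = 0 := fun c hc y hy he =>
    if_neg fun h => par_nonloop hC0 ((ac_pair_eq hK hC (hG c hc y hy) he).1 h.1)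
      (c := c) (by simp) (hv c hc)
  -- different sides
  have Fne : ∀ c ∈ G, ∀ y ∈ G, ∀ c' ∈ G, ∀ y' ∈ G, eta c = true → eta y = false →
      eta c' = true → eta y' = false → G \ {c, y} = {c', y'} →
      F K s0 v G {c, y} = if M K v c y = sg s0 ∧ M K w c' y' = sg s0 then 1 else 0 := by
    intro c hc y hy c' hc' y' hy' h1 h2 h3 h4 h5
    unfold F
    refine if_congr ?_ rfl rfl
    have hs : ({c, y} : Finset X) ⊆ G := by
      intro a ha; simp only [Finset.mem_insert, Finset.mem_singleton] at ha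
      rcases ha with rfl | rfl <;> assumption
    have hcy' := hne h3 h4
    have e1 : v ∆ {c, y} = (w ∆ {y'}) ∆ {c'} := by
      rw [co_state v hs, h5, ← hw, sd_pair _ hcy']
    rw [h5, e1, ac_pair_ne hK hC (hG c hc y hy) (by rw [h1, h2]; simp),
      ac_pair_ne hK hC (hom_flip2 hcy' (hww hc' hy')) (by rw [h3, h4]; simp),
      crs_flip_iff hC0 hC hcy' (hww hc' hy'), crs_iff hC0, crs_iff hC0]
    exact ⟨fun h => ⟨h.1.2.2, h.2.2.2⟩, fun h =>
      ⟨⟨hv c hc, hv y hy, h.1⟩, ⟨hl c' hc', hl y' hy', h.2⟩⟩⟩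
  -- triples
  have crv : ∀ c ∈ G, ∀ y ∈ G, (K.Crs s0 v c y ↔ M K v c y = sg s0) := by
    intro c hc y hy
    rw [crs_iff hC0]
    exact ⟨fun h => h.2.2, fun h => ⟨hv c hc, hv y hy, h⟩⟩
  have Ftr : ∀ c ∈ G, ∀ c' ∈ G, ∀ y ∈ G, ∀ e ∈ G, eta c = eta c' → eta c ≠ eta y →
      G \ {c, c', y} = {e} →
      F K s0 v G {c, c', y} = if K.Crs s0 v c y ∧ K.Crs s0 v c' y then 1 else 0 := by
    intro c hc c' hc' y hy e he h1 h2 h3
    unfold F
    refine if_congr ?_ rfl rfl
    have hs : ({c, c', y} : Finset X) ⊆ G := by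
      intro a ha; simp only [Finset.mem_insert, Finset.mem_singleton] at ha
      rcases ha with rfl | rfl | rfl <;> assumption
    rw [ac_triple hK hC (hom_sub hG hs) h1 h2]
    exact ⟨fun h => h.1, fun h => ⟨h, F_co hC0 h3 hs (hl e he)⟩⟩
  set a11 := M K v i1 j1 with ha11
  set a12 := M K v i1 j2 with ha12
  set a21 := M K v i2 j1 with ha21
  set a22 := M K v i2 j2 with ha22
  set b11 := M K w i1 j1 with hb11
  set b12 := M K w i1 j2 with hb12
  set b21 := M K w i2 j1 with hb21
  set b22 := M K w i2 j2 with hb22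
  have hsumG : ∀ g : X → ℤ, ∑ c ∈ G, g c = g i1 + (g i2 + (g j1 + g j2)) := by
    intro g
    rw [hGdef, Finset.sum_insert (by simp [hi, n11, n12]), Finset.sum_insert (by simp [n21, n22]),
      Finset.sum_pair hj]
  have t1 : b11 * a11 + b21 * a21 = 1 := by
    have := tele' hK (v ∆ {j1}) G (K.tail j1) (K.tail j1)
    rw [sd_comm v {j1} G, ← hw, hsumG] at this
    change (if eta i1 = true then (1:ℤ) else -1) * b11 * a11 +
      ((if eta i2 = true then (1:ℤ) else -1) * b21 * a21 +
      ((if eta j1 = true then (1:ℤ) else -1) * M K w j1 j1 * M K v j1 j1 +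
      (if eta j2 = true then (1:ℤ) else -1) * M K w j2 j1 * M K v j2 j1)) = 0 at this
    rw [M_self hC0 (hl j1 mj1), M_self hC0 (hv j1 mj1),
      M_zero_of_eta hK hj.symm (hww mj2 mj1) (hl j2 mj2) (hl j1 mj1) (ej2.trans ej1.symm),
      ei1, ei2, ej1, ej2] at this
    simp at this
    linarith
  have t2 : b12 * a12 + b22 * a22 = 1 := by
    have := tele' hK (v ∆ {j2}) G (K.tail j2) (K.tail j2)
    rw [sd_comm v {j2} G, ← hw, hsumG] at this
    change (if eta i1 = true then (1:ℤ) else -1) * b12 * a12 +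
      ((if eta i2 = true then (1:ℤ) else -1) * b22 * a22 +
      ((if eta j1 = true then (1:ℤ) else -1) * M K w j1 j2 * M K v j1 j2 +
      (if eta j2 = true then (1:ℤ) else -1) * M K w j2 j2 * M K v j2 j2)) = 0 at this
    rw [M_self hC0 (hl j2 mj2), M_self hC0 (hv j2 mj2),
      M_zero_of_eta hK hj (hww mj1 mj2) (hl j1 mj1) (hl j2 mj2) (ej1.trans ej2.symm),
      ei1, ei2, ej1, ej2] at this
    simp at this
    linarith
  have hG12 : G \ {j1, j2} = {i1, i2} := by
    apply c2 mi1 mi2
    · simp [n11, n12]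
    · simp [n21, n22]
    · intro c hc h1 h2
      simp only [hGdef, Finset.mem_insert, Finset.mem_singleton] at hc ⊢; grind
    · intro c hc
      simp only [hGdef, Finset.mem_insert, Finset.mem_singleton] at hc ⊢; grind
  have hsub12 : ({j1, j2} : Finset X) ⊆ G := by
    intro a ha; simp only [Finset.mem_insert, Finset.mem_singleton] at ha
    rcases ha with rfl | rfl <;> assumption
  have hst : ∀ {j j' : X}, ({j1, j2} : Finset X) = {j, j'} → j ≠ j' →
      (v ∆ {j}) ∆ {i1, i2} = w ∆ {j'} := by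
    intro j j' h1 h2
    have h3 := B1.sd_split v hsub12
    rw [hG12, h1, ← hw, sd_pair _ h2] at h3
    rw [h3, sd_comm _ {i1, i2} {j'}, sd_comm (v ∆ {j'}) {j} {j'}, B1.sd_cancel]
  have t3 : b11 * a12 + b21 * a22 = 0 := by
    have := tele' hK (v ∆ {j2}) {i1, i2} (K.tail j1) (K.tail j2)
    rw [hst (Finset.pair_comm _ _) hj.symm, Finset.sum_pair hi] at this
    change (if eta i1 = true then (1:ℤ) else -1) * b11 * a12 +
      (if eta i2 = true then (1:ℤ) else -1) * b21 * a22 = 0 at this
    rw [ei1, ei2] at this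
    simp at this
    linarith
  have t4 : b12 * a11 + b22 * a21 = 0 := by
    have := tele' hK (v ∆ {j1}) {i1, i2} (K.tail j2) (K.tail j1)
    rw [hst rfl hj, Finset.sum_pair hi] at this
    change (if eta i1 = true then (1:ℤ) else -1) * b12 * a11 +
      (if eta i2 = true then (1:ℤ) else -1) * b22 * a21 = 0 at this
    rw [ei1, ei2] at this
    simp at this
    linarith
  have hsum := sum4 (F K s0 v G) hi n11 n12 n21 n22 hj
  rw [← hGdef] at hsum
  -- the complements
  have k11 : G \ {i1, j1} = {i2, j2} := by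
    apply c2 mi2 mj2
    · simp [hi.symm, n21]
    · simp [n12.symm, hj.symm]
    · intro c hc h1 h2
      simp only [hGdef, Finset.mem_insert, Finset.mem_singleton] at hc ⊢; grind
    · intro c hc
      simp only [hGdef, Finset.mem_insert, Finset.mem_singleton] at hc ⊢; grind
  have k12 : G \ {i1, j2} = {i2, j1} := by
    apply c2 mi2 mj1
    · simp [hi.symm, n22]
    · simp [n11.symm, hj]
    · intro c hc h1 h2
      simp only [hGdef, Finset.mem_insert, Finset.mem_singleton] at hc ⊢; grind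
    · intro c hc
      simp only [hGdef, Finset.mem_insert, Finset.mem_singleton] at hc ⊢; grind
  have k21 : G \ {i2, j1} = {i1, j2} := by
    apply c2 mi1 mj2
    · simp [hi, n11]
    · simp [n22.symm, hj.symm]
    · intro c hc h1 h2
      simp only [hGdef, Finset.mem_insert, Finset.mem_singleton] at hc ⊢; grind
    · intro c hc
      simp only [hGdef, Finset.mem_insert, Finset.mem_singleton] at hc ⊢; grind
  have k22 : G \ {i2, j2} = {i1, j1} := by
    apply c2 mi1 mj1
    · simp [hi, n12]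
    · simp [n21.symm, hj]
    · intro c hc h1 h2
      simp only [hGdef, Finset.mem_insert, Finset.mem_singleton] at hc ⊢; grind
    · intro c hc
      simp only [hGdef, Finset.mem_insert, Finset.mem_singleton] at hc ⊢; grind
  have k1 : G \ {j1, j2, i1} = {i2} := by
    apply c3 mi2
    · simp [n21, n22, hi.symm]
    · intro c hc h1
      simp only [hGdef, Finset.mem_insert, Finset.mem_singleton] at hc ⊢; grind
    · intro c hc
      simp only [hGdef, Finset.mem_insert, Finset.mem_singleton] at hc ⊢; grind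
  have k2 : G \ {j1, j2, i2} = {i1} := by
    apply c3 mi1
    · simp [n11, n12, hi]
    · intro c hc h1
      simp only [hGdef, Finset.mem_insert, Finset.mem_singleton] at hc ⊢; grind
    · intro c hc
      simp only [hGdef, Finset.mem_insert, Finset.mem_singleton] at hc ⊢; grind
  have k3 : G \ {i1, i2, j1} = {j2} := by
    apply c3 mj2
    · simp [n12.symm, n22.symm, hj.symm]
    · intro c hc h1
      simp only [hGdef, Finset.mem_insert, Finset.mem_singleton] at hc ⊢; grind
    · intro c hc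
      simp only [hGdef, Finset.mem_insert, Finset.mem_singleton] at hc ⊢; grind
  have k4 : G \ {i1, i2, j2} = {j1} := by
    apply c3 mj1
    · simp [n11.symm, n21.symm, hj]
    · intro c hc h1
      simp only [hGdef, Finset.mem_insert, Finset.mem_singleton] at hc ⊢; grind
    · intro c hc
      simp only [hGdef, Finset.mem_insert, Finset.mem_singleton] at hc ⊢; grind
  -- symmetric forms of the crossing
  have sy : ∀ c ∈ G, ∀ y ∈ G, (K.Crs s0 v c y ↔ K.Crs s0 v y c) := fun c hc y hy =>
    ⟨hC v c y (hG c hc y hy), hC v y c (hG y hy c hc)⟩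
  have f22 := Fne i2 mi2 j2 mj2 i1 mi1 j1 mj1 ei2 ej2 ei1 ej1 k22
  have f21 := Fne i2 mi2 j1 mj1 i1 mi1 j2 mj2 ei2 ej1 ei1 ej2 k21
  have f12 := Fne i1 mi1 j2 mj2 i2 mi2 j1 mj1 ei1 ej2 ei2 ej1 k12
  have f11 := Fne i1 mi1 j1 mj1 i2 mi2 j2 mj2 ei1 ej1 ei2 ej2 k11
  have fj1 : F K s0 v G {i1, i2, j1} = if a11 = sg s0 ∧ a21 = sg s0 then 1 else 0 := by
    rw [Ftr i1 mi1 i2 mi2 j1 mj1 j2 mj2 (by rw [ei1, ei2]) (by rw [ei1, ej1]; simp) k3]
    exact if_congr (by rw [crv i1 mi1 j1 mj1, crv i2 mi2 j1 mj1]) rfl rfl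
  have fj2 : F K s0 v G {i1, i2, j2} = if a12 = sg s0 ∧ a22 = sg s0 then 1 else 0 := by
    rw [Ftr i1 mi1 i2 mi2 j2 mj2 j1 mj1 (by rw [ei1, ei2]) (by rw [ei1, ej2]; simp) k4]
    exact if_congr (by rw [crv i1 mi1 j2 mj2, crv i2 mi2 j2 mj2]) rfl rfl
  have fi1 : F K s0 v G {i1, j1, j2} = if a11 = sg s0 ∧ a12 = sg s0 then 1 else 0 := by
    have e : ({i1, j1, j2} : Finset X) = {j1, j2, i1} := by
      ext; simp only [Finset.mem_insert, Finset.mem_singleton]; grind
    rw [e, Ftr j1 mj1 j2 mj2 i1 mi1 i2 mi2 (by rw [ej1, ej2]) (by rw [ei1, ej1]; simp) k1]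
    exact if_congr (by rw [sy j1 mj1 i1 mi1, sy j2 mj2 i1 mi1, crv i1 mi1 j1 mj1,
      crv i1 mi1 j2 mj2]) rfl rfl
  have fi2 : F K s0 v G {i2, j1, j2} = if a21 = sg s0 ∧ a22 = sg s0 then 1 else 0 := by
    have e : ({i2, j1, j2} : Finset X) = {j1, j2, i2} := by
      ext; simp only [Finset.mem_insert, Finset.mem_singleton]; grind
    rw [e, Ftr j1 mj1 j2 mj2 i2 mi2 i1 mi1 (by rw [ej1, ej2]) (by rw [ei2, ej1]; simp) k2]
    exact if_congr (by rw [sy j1 mj1 i2 mi2, sy j2 mj2 i2 mi2, crv i2 mi2 j1 mj1,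
      crv i2 mi2 j2 mj2]) rfl rfl
  rw [hsum, F_empty, F_full, Fs i1 mi1, Fs i2 mi2, Fs j1 mj1, Fs j2 mj2,
    Feq i1 mi1 i2 mi2 (by rw [ei1, ei2]), Feq j1 mj1 j2 mj2 (by rw [ej1, ej2]),
    f22, f21, f12, f11, fj1, fj2, fi1, fi2]
  exact parity4 a11 a12 a21 a22 b11 b12 b21 b22 (sg s0) (M_range _ _ _) (M_range _ _ _)
    (M_range _ _ _) (M_range _ _ _) (sg_cases s0) t1 t2 t3 t4

/-- not all arcs are on the same side -/
theorem mono (hK : K.IsSys eta) {v G : Finset X} (hG : Hom v G)
    (hl : ∀ c ∈ G, K.Loop (v ∆ G) c) (he : ∀ c ∈ G, ∀ c' ∈ G, eta c = eta c') :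
    K.num v = K.num (v ∆ G) + G.card := by
  have hs : K.Spl (v ∆ G) G := by
    apply B1.spl_of_pairwise hK.toIsCore hl
    intro c hc c' hc' hne
    exact (M_eq_zero hK.toIsCore (hl c' hc') (hl c hc)).1
      (M_zero_of_eta hK hne.symm (hom_w hG hc' hc) (hl c' hc') (hl c hc) (he c' hc' c hc))
  unfold Cube.Spl at hs
  rwa [B1.sd_cancel] at hs

omit [Finite E] in
theorem no_star (hK : K.IsSys eta) {v G : Finset X} (hG : Hom v G)
    (hl : ∀ c ∈ G, K.Loop (v ∆ G) c) (hv : ∀ c ∈ G, K.Loop v c) {l r1 r2 : X}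
    (ml : l ∈ G) (m1 : r1 ∈ G) (m2 : r2 ∈ G) (h1 : r1 ≠ l) (h2 : r2 ≠ l) (h12 : r1 ≠ r2)
    (he : ∀ c ∈ G, c ≠ l → eta c ≠ eta l) : False := by
  have hC0 := hK.toIsCore
  have hee : ∀ c ∈ G, c ≠ l → ∀ c' ∈ G, c' ≠ l → eta c = eta c' := by
    intro c hc hcl c' hc' hcl'
    have a := he c hc hcl
    have b := he c' hc' hcl'
    revert a b
    cases eta c <;> cases eta c' <;> cases eta l <;> simp
  have key : ∀ r ∈ G, r ≠ l → M K (v ∆ G) l r ≠ 0 ∧ M K v l r ≠ 0 := by
    intro r hr hrl
    have := tele' hK (v ∆ {r}) G (K.tail r) (K.tail r)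
    rw [sd_comm v {r} G, Finset.sum_eq_add r l hrl] at this
    · change (if eta r = true then (1:ℤ) else -1) * M K (v ∆ G) r r * M K v r r +
        (if eta l = true then (1:ℤ) else -1) * M K (v ∆ G) l r * M K v l r = 0 at this
      rw [M_self hC0 (hl r hr), M_self hC0 (hv r hr)] at this
      constructor
      · intro h
        rw [h] at this
        revert this
        cases eta r <;> simp
      · intro h
        rw [h] at this
        revert this
        cases eta r <;> simp
    · intro c hc hcc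
      change (if eta c = true then (1:ℤ) else -1) * M K (v ∆ G) c r * M K v c r = 0
      rw [M_zero_of_eta hK hcc.1 (hom_w hG hc hr) (hl c hc) (hl r hr) (hee c hc hcc.2 r hr hrl)]
      simp
    · intro h; exact absurd hr h
    · intro h; exact absurd ml h
  have hsub : ({r1, r2} : Finset X) ⊆ G := by
    intro a ha; simp only [Finset.mem_insert, Finset.mem_singleton] at ha
    rcases ha with rfl | rfl <;> assumption
  have hst : (v ∆ {r2}) ∆ (G \ {r1, r2}) = (v ∆ G) ∆ {r1} := by
    have h3 := B1.sd_split v hsub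
    rw [sd_pair _ h12] at h3
    rw [h3, sd_comm _ (G \ {r1, r2}) {r1}, B1.sd_cancel]
  have := tele' hK (v ∆ {r2}) (G \ {r1, r2}) (K.tail r1) (K.tail r2)
  rw [hst, Finset.sum_eq_single l] at this
  · change (if eta l = true then (1:ℤ) else -1) * M K (v ∆ G) l r1 * M K v l r2 = 0 at this
    have k1 := (key r1 m1 h1).1
    have k2 := (key r2 m2 h2).2
    revert this
    cases eta l <;> simp [k1, k2]
  · intro c hc hcl
    rw [Finset.mem_sdiff] at hc
    change (if eta c = true then (1:ℤ) else -1) * M K (v ∆ G) c r1 * M K v c r2 = 0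
    have hcr : c ≠ r1 := fun h => hc.2 (by simp [h])
    rw [M_zero_of_eta hK hcr (hom_w hG hc.1 m1) (hl c hc.1) (hl r1 m1)
      (hee c hc.1 hcl r1 m1 h1)]
    simp
  · intro h
    exact absurd (Finset.mem_sdiff.2 ⟨ml, by simp [h1.symm, h2.symm]⟩) h

open Classical in
theorem YYb (hK : K.IsSys eta) (s0 : Bool) (hN : K.NumP s0) (hC : K.CrsP s0) (v G : Finset X)
    (hG : Hom v G) (hl : ∀ c ∈ G, K.Loop (v ∆ G) c) :
    (∑ A ∈ G.powerset, if K.AC s0 v A ∧ K.AC s0 (v ∆ A) (G \ A) then (1 : ZMod 2) else 0) = 0 := by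
  change ∑ A ∈ G.powerset, F K s0 v G A = 0
  have hC0 := hK.toIsCore
  by_cases hterm : ∃ A ∈ G.powerset, K.AC s0 v A ∧ K.AC s0 (v ∆ A) (G \ A)
  swap
  · apply Finset.sum_eq_zero
    intro A hA
    exact if_neg fun h => hterm ⟨A, hA, h⟩
  obtain ⟨A, hA, h1, h2⟩ := hterm
  rw [Finset.mem_powerset] at hA
  have hcard : G.card = A.card + (G \ A).card := by
    rw [Finset.card_sdiff_of_subset hA]
    have := Finset.card_le_card hA
    omega
  have hnum : K.num (v ∆ G) + 4 = K.num v + G.card := by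
    have e1 := hN v A (hom_sub hG hA) h1
    have e2 := hN (v ∆ A) (G \ A) (hom_flip hG Finset.sdiff_subset (by
      intro c hc c' hc'
      rw [Finset.mem_sdiff] at hc hc'
      grind)) h2
    rw [← B1.sd_split v hA] at e2
    omega
  rcases shape hK hN hC hG hl hA h1 h2 with h | h | ⟨h, hv⟩
  · obtain ⟨x, y, hxy, rfl⟩ := Finset.card_eq_two.1 h
    exact two hC0 hxy
  · obtain ⟨x, y, z, hxy, hxz, hyz, rfl⟩ := Finset.card_eq_three.1 h
    have hnum' : K.num (v ∆ {x, y, z}) + 1 = K.num v := by omega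
    by_cases exy : eta x = eta y
    · by_cases exz : eta x = eta z
      · exfalso
        have := mono hK hG hl (by
          intro c hc c' hc'
          simp only [Finset.mem_insert, Finset.mem_singleton] at hc hc'
          rcases hc with rfl | rfl | rfl <;> rcases hc' with rfl | rfl | rfl <;> simp_all)
        omega
      · exact three hK hC hxy exy exz hG hl hnum'
    · by_cases exz : eta x = eta z
      · have e : ({x, y, z} : Finset X) = {x, z, y} := by
          ext; simp only [Finset.mem_insert, Finset.mem_singleton]; grind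
        rw [e] at hG hl hnum' ⊢
        exact three hK hC hxz exz exy hG hl hnum'
      · have eyz : eta y = eta z := by
          revert exy exz
          cases eta x <;> cases eta y <;> cases eta z <;> simp
        have e : ({x, y, z} : Finset X) = {y, z, x} := by
          ext; simp only [Finset.mem_insert, Finset.mem_singleton]; grind
        rw [e] at hG hl hnum' ⊢
        exact three hK hC hyz eyz (fun h => exy h.symm) hG hl hnum'
  · have hsum : (G.filter fun x => eta x = true).card +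
        (G.filter fun x => ¬ eta x = true).card = G.card :=
      Finset.card_filter_add_card_filter_not _
    have hk : (G.filter fun x => eta x = true).card = 0 ∨
        (G.filter fun x => eta x = true).card = 1 ∨ (G.filter fun x => eta x = true).card = 2 ∨
        (G.filter fun x => eta x = true).card = 3 ∨
        (G.filter fun x => eta x = true).card = 4 := by omega
    rcases hk with hk | hk | hk | hk | hk
    · exfalso
      rw [Finset.card_eq_zero, Finset.filter_eq_empty_iff] at hk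
      have := mono hK hG hl (by
        intro c hc c' hc'
        have a := hk hc
        have b := hk hc'
        revert a b
        cases eta c <;> cases eta c' <;> simp)
      omega
    · exfalso
      obtain ⟨l, hL⟩ := Finset.card_eq_one.1 hk
      have hR : 2 < (G.filter fun x => ¬ eta x = true).card := by omega
      obtain ⟨a, b, _, ha, hb, _, hab, _, _⟩ := Finset.two_lt_card_iff.1 hR
      rw [Finset.mem_filter] at ha hb
      have hlm : l ∈ G.filter fun x => eta x = true := by rw [hL]; simp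
      rw [Finset.mem_filter] at hlm
      refine no_star hK hG hl hv hlm.1 ha.1 hb.1 ?_ ?_ hab ?_
      · rintro rfl; exact ha.2 hlm.2
      · rintro rfl; exact hb.2 hlm.2
      · intro c hc hcl hcc
        have : c ∈ G.filter fun x => eta x = true :=
          Finset.mem_filter.2 ⟨hc, by rw [hcc]; exact hlm.2⟩
        rw [hL, Finset.mem_singleton] at this
        exact hcl this
    · obtain ⟨i1, i2, hi, hL⟩ := Finset.card_eq_two.1 hk
      have hk' : (G.filter fun x => ¬ eta x = true).card = 2 := by omega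
      obtain ⟨j1, j2, hj, hR⟩ := Finset.card_eq_two.1 hk'
      have mi1 : i1 ∈ G.filter fun x => eta x = true := by rw [hL]; simp
      have mi2 : i2 ∈ G.filter fun x => eta x = true := by rw [hL]; simp
      have mj1 : j1 ∈ G.filter fun x => ¬ eta x = true := by rw [hR]; simp
      have mj2 : j2 ∈ G.filter fun x => ¬ eta x = true := by rw [hR]; simp
      rw [Finset.mem_filter] at mi1 mi2 mj1 mj2
      have e : G = {i1, i2, j1, j2} := by
        rw [← Finset.filter_union_filter_not_eq (fun x => eta x = true) G, hL, hR]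
        ext; simp only [Finset.mem_union, Finset.mem_insert, Finset.mem_singleton]; grind
      have ej1 : eta j1 = false := by simpa using mj1.2
      have ej2 : eta j2 = false := by simpa using mj2.2
      rw [e] at hG hl hv ⊢
      exact four hK hC hi hj mi1.2 mi2.2 ej1 ej2 hG hl hv
    · exfalso
      have hk' : (G.filter fun x => ¬ eta x = true).card = 1 := by omega
      obtain ⟨l, hL⟩ := Finset.card_eq_one.1 hk'
      have hR : 2 < (G.filter fun x => eta x = true).card := by omega
      obtain ⟨a, b, _, ha, hb, _, hab, _, _⟩ := Finset.two_lt_card_iff.1 hR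
      rw [Finset.mem_filter] at ha hb
      have hlm : l ∈ G.filter fun x => ¬ eta x = true := by rw [hL]; simp
      rw [Finset.mem_filter] at hlm
      refine no_star hK hG hl hv hlm.1 ha.1 hb.1 ?_ ?_ hab ?_
      · rintro rfl; exact hlm.2 ha.2
      · rintro rfl; exact hlm.2 hb.2
      · intro c hc hcl hcc
        have : c ∈ G.filter fun x => ¬ eta x = true :=
          Finset.mem_filter.2 ⟨hc, by rw [hcc]; exact hlm.2⟩
        rw [hL, Finset.mem_singleton] at this
        exact hcl this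
    · exfalso
      have hk' : (G.filter fun x => ¬ eta x = true).card = 0 := by omega
      rw [Finset.card_eq_zero, Finset.filter_eq_empty_iff] at hk'
      have := mono hK hG hl (by
        intro c hc c' hc'
        have a := hk' hc
        have b := hk' hc'
        revert a b
        cases eta c <;> cases eta c' <;> simp)
      omega

end final

end YYb
end Pool.Agent.helper20.Sz
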